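import Pool.Agent.W677.MarG3
import Pool.Agent.W677.MarM

set_option autoImplicit false

/-! # The two variable form of Goluzin's inequality -/

namespace Pool.Agent.W5h49.MB

open Complex Metric Set Filter Topology MeasureTheory
open Pool.Agent.W677.Mar

variable {Y H : ℂ → ℂ}

/-- Cauchy-Schwarz, off the diagonal -/
theorem log_bound2 (S : Sg Y H) {r : ℝ} (hr1 : r < 1) {ζ : ℂ} (hζ0 : ζ ≠ 0) (hζ : ‖ζ‖ ≤ r)
    {z : ℂ} (hz : ‖z‖ ≤ r) {A : ℂ → ℂ}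
    (hA : DifferentiableOn ℂ A (ball 0 1)) (hA0 : A 0 = 0)
    (hAe : ∀ z ∈ ball (0 : ℂ) 1, Complex.exp (A z) = NN Y ζ z) :
    ‖A z‖ ≤ lam (r ^ 2) := by
  have hr0 : 0 ≤ r := (norm_nonneg _).trans hz
  have hx1 : r ^ 2 < 1 := pow_lt_one₀ hr0 hr1 two_ne_zero
  obtain ⟨L, hL⟩ : ∃ L, L = lam (r ^ 2) := ⟨_, rfl⟩
  have hL0 : 0 ≤ L := by
    rw [hL]
    exact lam_nonneg (by positivity) hx1
  have hmono : ∀ w : ℂ, ‖w‖ ≤ r → -Real.log (1 - ‖w‖ ^ 2) ≤ L := by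
    intro w hw
    have h1 : ‖w‖ ^ 2 ≤ r ^ 2 := pow_le_pow_left₀ (norm_nonneg _) hw 2
    rw [hL, lam]
    have := Real.log_le_log (by linarith : 0 < 1 - r ^ 2) (by linarith : 1 - r ^ 2 ≤ 1 - ‖w‖ ^ 2)
    linarith
  have hζb : ζ ∈ ball (0 : ℂ) 1 := mem_ball_zero_iff.2 (hζ.trans_lt hr1)
  have hzb : z ∈ ball (0 : ℂ) 1 := mem_ball_zero_iff.2 (hz.trans_lt hr1)
  set c : ℕ → ℂ := fun n => (n.factorial : ℂ)⁻¹ * iteratedDeriv n A 0 with hcdef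
  have hc : ∀ z ∈ ball (0:ℂ) 1, HasSum (fun j => c j * z ^ j) (A z) := by
    intro z hz
    have h1 := Complex.hasSum_taylorSeries_on_ball hA hz
    refine h1.congr_fun ?_ |> fun h => h
    intro n
    simp only [hcdef, smul_eq_mul, sub_zero]
    ring
  have hc0 : c 0 = 0 := by
    simp [hcdef, hA0]
  rw [← hL]
  have hpart : ∀ N : ℕ, ‖∑ k ∈ Finset.range N, c k * z ^ k‖ ≤ L := by
    intro N
    have h1 : ‖∑ k ∈ Finset.range N, c k * z ^ k‖ ≤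
        ∑ k ∈ Finset.range N, (Real.sqrt k * ‖c k‖) * (‖z‖ ^ k / Real.sqrt k) := by
      refine (norm_sum_le _ _).trans (Finset.sum_le_sum fun k _ => ?_)
      rw [norm_mul, norm_pow]
      rcases Nat.eq_zero_or_pos k with h | h
      · rw [h, hc0]
        simp
      · have hk : Real.sqrt k ≠ 0 := by
          have : (0 : ℝ) < k := by exact_mod_cast h
          positivity
        apply le_of_eq
        field_simp
    have h2 := Finset.sum_mul_sq_le_sq_mul_sq (Finset.range N) (fun k : ℕ => Real.sqrt k * ‖c k‖)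
      (fun k : ℕ => ‖z‖ ^ k / Real.sqrt k)
    have h3 : ∑ k ∈ Finset.range N, (Real.sqrt (k : ℝ) * ‖c k‖) ^ 2 ≤ L := by
      have := area_log S hζ0 hζb hA hAe hc N
      refine le_trans (le_of_eq (Finset.sum_congr rfl fun k _ => ?_)) (this.trans (hmono ζ hζ))
      rw [mul_pow, Real.sq_sqrt (Nat.cast_nonneg k)]
    have h4 : ∑ k ∈ Finset.range N, (‖z‖ ^ k / Real.sqrt (k : ℝ)) ^ 2 ≤ L := by
      have h5 := hasSum_log (x := ‖z‖ ^ 2) (by positivity)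
        (by
          have := pow_le_pow_left₀ (norm_nonneg _) hz 2
          linarith)
      refine le_trans (le_of_eq (Finset.sum_congr rfl fun k _ => ?_)) ((sum_le_hasSum
        (Finset.range N) (fun k _ => by positivity) h5).trans (hmono z hz))
      rw [div_pow, Real.sq_sqrt (Nat.cast_nonneg k), ← pow_mul, ← pow_mul, mul_comm]
    have h5 : (∑ k ∈ Finset.range N, (Real.sqrt k * ‖c k‖) * (‖z‖ ^ k / Real.sqrt k)) ^ 2 ≤ L ^ 2 := by
      refine h2.trans ?_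
      rw [sq L]
      exact mul_le_mul h3 h4 (Finset.sum_nonneg fun k _ => sq_nonneg _) hL0
    have h6 := abs_le_of_sq_le_sq h5 hL0
    exact h1.trans ((le_abs_self _).trans h6)
  exact le_of_tendsto ((hc z hzb).tendsto_sum_nat.norm) (Eventually.of_forall hpart)

theorem NN_symm (Y : ℂ → ℂ) (ζ z : ℂ) (h : z ≠ ζ) : NN Y ζ z = NN Y z ζ := by
  have h1 := NN_mul Y ζ z
  have h2 := NN_mul Y z ζ
  have h3 : z - ζ ≠ 0 := sub_ne_zero.2 h
  apply mul_right_cancel₀ h3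
  rw [h1]
  linear_combination h2

/-- the two variable logarithm, with all its properties -/
structure TL (Y H : ℂ → ℂ) (f : ℂ × ℂ → ℂ) : Prop where
  cont : ContinuousOn f (ball 0 1 ×ˢ ball 0 1)
  exp : ∀ ζ ∈ ball (0 : ℂ) 1, ∀ z ∈ ball (0 : ℂ) 1, Complex.exp (f (ζ, z)) = NN Y ζ z
  z0 : ∀ ζ ∈ ball (0 : ℂ) 1, f (ζ, 0) = 0
  ζ0 : ∀ z ∈ ball (0 : ℂ) 1, f (0, z) = 0
  dz : ∀ ζ ∈ ball (0 : ℂ) 1, DifferentiableOn ℂ (fun z => f (ζ, z)) (ball 0 1)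
  dζ : ∀ z ∈ ball (0 : ℂ) 1, DifferentiableOn ℂ (fun ζ => f (ζ, z)) (ball 0 1)
  le : ∀ r < 1, ∀ ζ z : ℂ, ζ ≠ 0 → ‖ζ‖ ≤ r → ‖z‖ ≤ r → ‖f (ζ, z)‖ ≤ lam (r ^ 2)

theorem exists_TL (S : Sg Y H) : ∃ f, TL Y H f := by
  obtain ⟨f, hf, hfe, hf0⟩ := exists_log S
  have h00 : (0 : ℂ) ∈ ball (0 : ℂ) 1 := mem_ball_self one_pos
  have hz : ∀ ζ ∈ ball (0 : ℂ) 1, ContinuousOn (fun z => f (ζ, z)) (ball 0 1) := by
    intro ζ hζ
    apply hf.comp (by fun_prop)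
    intro w hw
    exact ⟨hζ, hw⟩
  have hζ : ∀ z ∈ ball (0 : ℂ) 1, ContinuousOn (fun ζ => f (ζ, z)) (ball 0 1) := by
    intro z hz
    apply hf.comp (by fun_prop)
    intro w hw
    exact ⟨hw, hz⟩
  have hd : ∀ ζ ∈ ball (0 : ℂ) 1, DifferentiableOn ℂ (fun z => f (ζ, z)) (ball 0 1) := fun ζ hζ =>
    log_diff isOpen_ball (hz ζ hζ) (NN_diff S.G.diff hζ) (fun z hz => hfe ζ hζ z hz)
  have hsym : ∀ ζ ∈ ball (0 : ℂ) 1, ∀ z ∈ ball (0 : ℂ) 1, NN Y ζ z = NN Y z ζ := by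
    intro ζ _ z _
    by_cases h : z = ζ
    · rw [h]
    · exact NN_symm Y ζ z h
  refine ⟨f, hf, hfe, hf0, ?_, hd, ?_, ?_⟩
  · intro z hzz
    apply exp_unique (convex_ball (0 : ℂ) 1).isPreconnected (f := fun z => f (0, z))
      (g := fun _ => 0) (hz 0 h00) continuousOn_const _ h00 (hf0 0 h00) hzz
    intro w hw
    rw [hfe 0 h00 w hw, Complex.exp_zero, hsym 0 h00 w hw]
    unfold NN
    rw [zero_mul, sub_zero, S.G.one]
  · intro z hzz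
    exact log_diff isOpen_ball (hζ z hzz) (NN_diff S.G.diff hzz) (fun ζ hζ' => by
      show Complex.exp (f (ζ, z)) = _
      rw [hfe ζ hζ' z hzz, hsym ζ hζ' z hzz])
  · intro r hr ζ z hζ0 hζr hzr
    have hζb : ζ ∈ ball (0 : ℂ) 1 := mem_ball_zero_iff.2 (hζr.trans_lt hr)
    exact log_bound2 S hr hζ0 hζr hzr (hd ζ hζb) (hf0 ζ hζb) (fun z hz => hfe ζ hζb z hz)

end Pool.Agent.W5h49.MB
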