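import Pool.Agent.W5h49.MB.A9

set_option autoImplicit false

/-! # The equivalences -/

namespace Pool.Agent.W5h49.MB

open Complex Metric Set Filter Topology MeasureTheory
open Pool.Agent.W677.Mar Pool.Agent.R250.MC

/-- the spectrum at `t` is at most `β` -/
def AP (t : ℂ) (β : ℝ) : Prop :=
  ∀ ψ h : ℂ → ℂ, IsSig ψ h → ∀ ε : ℝ, 0 < ε → ∀ᶠ R in 𝓝[>] (1 : ℝ),
    eM t R h ≤ Real.exp ((β + ε) * Real.log (R ^ 2 / (R ^ 2 - 1)))

theorem AP.wp {t : ℂ} {β : ℝ} (hA : AP t β) (κ : ℝ) (N : ℕ) : WP t β κ N := by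
  intro ψ h S _ ε hε
  exact (hA ψ h S ε hε).frequently

theorem WP.ap {t : ℂ} {β κ : ℝ} {N : ℕ} (hβ : 0 ≤ β) (hκ : 0 < κ) (hW : WP t β κ N) : AP t β := by
  intro ψ h S ε hε
  filter_upwards [absorb hβ hε (Real.log (4 * (192 + 12 / κ + N))) ‖t‖, ev_one] with R h1 hR
  exact (ext_bound hβ hκ hW hR S).trans (Real.exp_le_exp.2 h1)

theorem log816 : Real.log (4 * (192 + 12 / 1 + ((0 : ℕ) : ℝ))) ≤ 7 := by
  rw [Nat.cast_zero, add_zero]
  rw [Real.log_le_iff_le_exp (by norm_num)]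
  have h1 := Real.exp_one_gt_d9
  have h2 : Real.exp 7 = Real.exp 1 ^ 7 := by
    rw [← Real.exp_nat_mul]
    norm_num
  rw [h2]
  have h3 : (2.7 : ℝ) ^ 7 ≤ Real.exp 1 ^ 7 := by
    apply pow_le_pow_left₀ (by norm_num)
    linarith
  refine le_trans ?_ h3
  norm_num

theorem expl {t : ℂ} {β κ : ℝ} {N : ℕ} (hβ : 0 ≤ β) (hκ : 0 < κ) (hW : WP t β κ N) {R : ℝ} (hR : 1 < R)
    {ψ h : ℂ → ℂ} (S : IsSig ψ h) :
    eM t R h ≤ Real.exp (β * Er (Real.log (R ^ 2 / (R ^ 2 - 1))) + ‖t‖) := by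
  have h1 := ext_bound hβ one_pos ((WP.ap hβ hκ hW).wp 1 0) hR S
  refine h1.trans (Real.exp_le_exp.2 ?_)
  have h2 := log816
  have h3 : Real.log (R ^ 2 / (R ^ 2 - 1)) + 2 * Real.log (Real.log (R ^ 2 / (R ^ 2 - 1)) + 3) +
      Real.log (4 * (192 + 12 / 1 + ((0 : ℕ) : ℝ))) ≤ Er (Real.log (R ^ 2 / (R ^ 2 - 1))) := by
    unfold Er
    linarith
  have h4 := mul_le_mul_of_nonneg_left h3 hβ
  linarith

theorem AP_of_expl {t : ℂ} {β D : ℝ} (hβ : 0 ≤ β)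
    (hE : ∀ R : ℝ, 1 < R → ∀ ψ h : ℂ → ℂ, IsSig ψ h →
      eM t R h ≤ Real.exp (β * Er (Real.log (R ^ 2 / (R ^ 2 - 1))) + D)) : AP t β := by
  intro ψ h S ε hε
  filter_upwards [absorb hβ hε 7 D, ev_one] with R h1 hR
  exact (hE R hR ψ h S).trans (Real.exp_le_exp.2 h1)

theorem near {a κ : ℝ} {N : ℕ} (ha : 0 < a) (hκ : 0 < κ) {t : ℂ} (ht : ‖t‖ ≤ 2 * a)
    (hW : WP t (‖t‖ ^ 2 / (4 * a)) κ N) {R : ℝ} (hR : 1 < R) {ψ h : ℂ → ℂ} (S : IsSig ψ h) :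
    eM t R h ≤ Real.exp (‖t‖ ^ 2 / (4 * a) * Er (Real.log (R ^ 2 / (R ^ 2 - 1))) + 2 * a) := by
  refine (expl (by positivity) hκ hW hR S).trans (Real.exp_le_exp.2 ?_)
  linarith

theorem far {a κ : ℝ} {N : ℕ} (ha : 0 < a) (hκ : 0 < κ) {t : ℂ} (ht : 2 * a < ‖t‖)
    (hW : WP (((2 * a / ‖t‖ : ℝ) : ℂ) * t) a κ N) {R : ℝ} (hR : 1 < R) {ψ h : ℂ → ℂ}
    (S : IsSig ψ h) :
    eM t R h ≤ Real.exp (‖t‖ ^ 2 / (4 * a) * Er (Real.log (R ^ 2 / (R ^ 2 - 1))) + 2 * a) := by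
  have ht0 : 0 < ‖t‖ := by linarith
  have hL := L_pos hR
  obtain ⟨L, hLd⟩ : ∃ L, L = Real.log (R ^ 2 / (R ^ 2 - 1)) := ⟨_, rfl⟩
  obtain ⟨s, hs⟩ : ∃ s : ℝ, s = 2 * a / ‖t‖ := ⟨_, rfl⟩
  have hs0 : 0 < s := by rw [hs]; positivity
  have hs1 : s ≤ 1 := by
    rw [hs, div_le_one ht0]
    exact ht.le
  have hst : s * ‖t‖ = 2 * a := by
    rw [hs]
    field_simp
  have hnt : ‖(s : ℂ) * t‖ = 2 * a := by
    rw [norm_mul, Complex.norm_real, Real.norm_of_nonneg hs0.le, hst]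
  rw [← hs] at hW
  have h1 := expl ha.le hκ hW hR S
  have h2 := eM_ray S hR t hs1
  rw [hnt] at h1
  rw [← hLd] at h1 h2 hL ⊢
  refine (h2.trans (mul_le_mul_of_nonneg_left h1 (Real.exp_pos _).le)).trans ?_
  rw [← Real.exp_add]
  apply Real.exp_le_exp.2
  have h5 : ‖t‖ - a ≤ ‖t‖ ^ 2 / (4 * a) := by
    rw [le_div_iff₀ (by positivity)]
    nlinarith [sq_nonneg (‖t‖ - 2 * a)]
  have h6 : a ≤ ‖t‖ ^ 2 / (4 * a) := by linarith
  have hE := Er_ge hL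
  have h7 := mul_le_mul_of_nonneg_right h5 hL.le
  have h8 := mul_le_mul_of_nonneg_right h6 (by linarith : 0 ≤ Er L - L)
  have h9 : (1 - s) * (‖t‖ * L) = (‖t‖ - 2 * a) * L := by
    rw [← hst]
    ring
  rw [h9]
  linarith

/-- the full square bound -/
theorem sq_full {a b : ℝ} (hb : 0 < b) (hba : b < a)
    (hE : ∀ R : ℝ, 1 < R → ∀ ψ h : ℂ → ℂ, IsSig ψ h → ∀ t : ℂ,
      eM t R h ≤ Real.exp (‖t‖ ^ 2 / (4 * a) * Er (Real.log (R ^ 2 / (R ^ 2 - 1))) + 2 * a)) :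
    ∃ C : ℝ, ∀ R : ℝ, 1 < R → ∀ ψ h : ℂ → ℂ, IsSig ψ h → sM b R h ≤ C := by
  obtain ⟨C, hC⟩ := unif_aux hb hba
  refine ⟨C, fun R hR ψ h S => ?_⟩
  refine hC _ (L_pos hR) (fun θ => h ((R : ℂ) * Complex.exp ((θ : ℂ) * Complex.I)))
    (circ_cont S.2.2.2.1.continuousOn hR) (fun θ => goluzin_ext S.sg hR (norm_circ hR θ)) ?_
  intro t
  have h1 := hE R hR ψ h S t
  unfold eM at h1
  have h2 := Real.exp_pos (‖t‖ ^ 2 / (4 * a) * Er (Real.log (R ^ 2 / (R ^ 2 - 1))) + 2 * a)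
  linarith

/-- the directional square bound -/
theorem sq_ray {a b : ℝ} (hb : 0 < b) (hba : b < a) {u : ℂ} (hu : ‖u‖ = 1)
    (hE : ∀ R : ℝ, 1 < R → ∀ ψ h : ℂ → ℂ, IsSig ψ h → ∀ s : ℝ, 0 ≤ s →
      eM ((s : ℂ) * u) R h ≤
        Real.exp (s ^ 2 / (4 * a) * Er (Real.log (R ^ 2 / (R ^ 2 - 1))) + 2 * a)) :
    ∃ C : ℝ, ∀ R : ℝ, 1 < R → ∀ ψ h : ℂ → ℂ, IsSig ψ h → rM b R u h ≤ C := by
  have ha : 0 < a := hb.trans hba
  obtain ⟨C, hC⟩ := unif_aux hb hba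
  refine ⟨C, fun R hR ψ h S => ?_⟩
  have hL := L_pos hR
  have hE0 : 0 ≤ Er (Real.log (R ^ 2 / (R ^ 2 - 1))) := hL.le.trans (Er_ge hL)
  have hgc := circ_cont S.2.2.2.1.continuousOn hR
  have hxc : Continuous fun θ : ℝ => ((starRingEnd ℂ) u *
      h ((R : ℂ) * Complex.exp ((θ : ℂ) * Complex.I))).re :=
    continuous_re.comp (continuous_const.mul hgc)
  have hmc : Continuous fun θ : ℝ => max ((starRingEnd ℂ) u *
      h ((R : ℂ) * Complex.exp ((θ : ℂ) * Complex.I))).re 0 := hxc.max continuous_const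
  have h1 := hC _ hL (fun θ => ((max ((starRingEnd ℂ) u *
      h ((R : ℂ) * Complex.exp ((θ : ℂ) * Complex.I))).re 0 : ℝ) : ℂ))
    (continuous_ofReal.comp hmc) (by
      intro θ
      rw [Complex.norm_real, Real.norm_of_nonneg (le_max_right _ _)]
      apply max_le _ hL.le
      have h2 := (le_abs_self _).trans
        (re_conj_le u (h ((R : ℂ) * Complex.exp ((θ : ℂ) * Complex.I))))
      rw [hu, one_mul] at h2
      exact h2.trans (goluzin_ext S.sg hR (norm_circ hR θ))) (by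
      intro t
      have hX : 1 ≤ Real.exp (‖t‖ ^ 2 / (4 * a) * Er (Real.log (R ^ 2 / (R ^ 2 - 1))) + 2 * a) := by
        apply Real.one_le_exp
        positivity
      have e1 : ∀ x : ℝ, ((starRingEnd ℂ) t * (x : ℂ)).re = t.re * x := by
        intro x
        rw [mul_comm, Complex.re_ofReal_mul, Complex.conj_re, mul_comm]
      simp only [e1]
      have hc1 : Continuous fun θ : ℝ => Real.exp (t.re * max ((starRingEnd ℂ) u *
          h ((R : ℂ) * Complex.exp ((θ : ℂ) * Complex.I))).re 0) :=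
        (continuous_const.mul hmc).rexp
      rcases le_or_gt t.re 0 with ht | ht
      · have h2 := mean_mono hc1 (continuous_const (y := (1 : ℝ))) (by
          intro θ
          rw [Real.exp_le_one_iff]
          exact mul_nonpos_of_nonpos_of_nonneg ht (le_max_right _ _))
        rw [mean_const] at h2
        linarith
      · have hc2 : Continuous fun θ : ℝ => Real.exp ((starRingEnd ℂ) ((t.re : ℂ) * u) *
            h ((R : ℂ) * Complex.exp ((θ : ℂ) * Complex.I))).re :=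
          exp_cont S.2.2.2.1.continuousOn hR _
        have h2 := mean_mono hc1 (continuous_const (y := (1 : ℝ)) |>.add hc2) (by
          intro θ
          have e2 : (starRingEnd ℂ) ((t.re : ℂ) * u) *
              h ((R : ℂ) * Complex.exp ((θ : ℂ) * Complex.I)) =
              (t.re : ℂ) * ((starRingEnd ℂ) u * h ((R : ℂ) * Complex.exp ((θ : ℂ) * Complex.I))) := by
            rw [map_mul, Complex.conj_ofReal, mul_assoc]
          show _ ≤ 1 + Real.exp _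
          rw [e2, Complex.re_ofReal_mul]
          rcases le_total ((starRingEnd ℂ) u *
            h ((R : ℂ) * Complex.exp ((θ : ℂ) * Complex.I))).re 0 with h3 | h3
          · rw [max_eq_right h3, mul_zero, Real.exp_zero]
            have := Real.exp_pos (t.re * ((starRingEnd ℂ) u *
              h ((R : ℂ) * Complex.exp ((θ : ℂ) * Complex.I))).re)
            linarith
          · rw [max_eq_left h3]
            linarith)
        have h3 : (1 / (2 * Real.pi)) * ∫ θ in (0:ℝ)..(2 * Real.pi), (1 +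
            Real.exp ((starRingEnd ℂ) ((t.re : ℂ) * u) *
              h ((R : ℂ) * Complex.exp ((θ : ℂ) * Complex.I))).re) = 1 + eM ((t.re : ℂ) * u) R h := by
          rw [intervalIntegral.integral_add intervalIntegrable_const (hc2.intervalIntegrable _ _),
            mul_add, mean_const]
          rfl
        have h4 := hE R hR ψ h S t.re ht.le
        have h5 : Real.exp (t.re ^ 2 / (4 * a) * Er (Real.log (R ^ 2 / (R ^ 2 - 1))) + 2 * a) ≤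
            Real.exp (‖t‖ ^ 2 / (4 * a) * Er (Real.log (R ^ 2 / (R ^ 2 - 1))) + 2 * a) := by
          apply Real.exp_le_exp.2
          have h6 : t.re ^ 2 ≤ ‖t‖ ^ 2 := by
            rw [← sq_abs t.re]
            exact pow_le_pow_left₀ (abs_nonneg _) (abs_re_le_norm t) 2
          have h7 := mul_le_mul_of_nonneg_right
            (div_le_div_of_nonneg_right h6 (by positivity : 0 ≤ 4 * a)) hE0
          linarith
        have h6 : (1 / (2 * Real.pi)) * ∫ θ in (0:ℝ)..(2 * Real.pi), Real.exp (t.re *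
            max ((starRingEnd ℂ) u * h ((R : ℂ) * Complex.exp ((θ : ℂ) * Complex.I))).re 0) ≤
            1 + eM ((t.re : ℂ) * u) R h := by
          rw [← h3]
          exact h2
        linarith)
  refine le_trans (le_of_eq ?_) h1
  unfold rM
  congr 2
  ext θ
  rw [Complex.norm_real, Real.norm_of_nonneg (le_max_right _ _)]

/-- one exponent -/
theorem tfae_point (t : ℂ) {β κ : ℝ} (N : ℕ) (hβ : 0 ≤ β) (hκ : 0 < κ) :
    List.TFAE [WP t β κ N, AP t β, ∀ R : ℝ, 1 < R → ∀ ψ h : ℂ → ℂ, IsSig ψ h →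
      eM t R h ≤ Real.exp (β * Er (Real.log (R ^ 2 / (R ^ 2 - 1))) + ‖t‖)] := by
  tfae_have 1 → 3 := fun hW R hR ψ h S => expl hβ hκ hW hR S
  tfae_have 3 → 2 := fun hE => AP_of_expl hβ hE
  tfae_have 2 → 1 := fun hA => hA.wp κ N
  tfae_finish

theorem norm_su {s : ℝ} (hs : 0 ≤ s) {u : ℂ} (hu : ‖u‖ = 1) : ‖(s : ℂ) * u‖ = s := by
  rw [norm_mul, Complex.norm_real, Real.norm_of_nonneg hs, hu, mul_one]

/-- one direction -/
theorem tfae_ray {a κ : ℝ} (N : ℕ) (ha : 0 < a) (hκ : 0 < κ) {u : ℂ} (hu : ‖u‖ = 1) :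
    List.TFAE [
      ∀ b : ℝ, 0 < b → b < a → ∃ C : ℝ, ∀ R : ℝ, 1 < R → ∀ ψ h : ℂ → ℂ, IsSig ψ h → rM b R u h ≤ C,
      ∀ b : ℝ, 0 < b → b < a → ∀ ψ h : ℂ → ℂ, IsSig ψ h → Test κ N ψ → ∀ ε : ℝ, 0 < ε →
        ∃ᶠ R in 𝓝[>] (1 : ℝ), rM b R u h ≤ Real.exp (ε * Real.log (R ^ 2 / (R ^ 2 - 1))),
      ∀ s : ℝ, 0 ≤ s → s ≤ 2 * a → AP ((s : ℂ) * u) (s ^ 2 / (4 * a)),
      ∀ s : ℝ, 0 ≤ s → s ≤ 2 * a → WP ((s : ℂ) * u) (s ^ 2 / (4 * a)) κ N,
      ∀ R : ℝ, 1 < R → ∀ ψ h : ℂ → ℂ, IsSig ψ h → ∀ s : ℝ, 0 ≤ s → eM ((s : ℂ) * u) R h ≤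
        Real.exp (s ^ 2 / (4 * a) * Er (Real.log (R ^ 2 / (R ^ 2 - 1))) + 2 * a)] := by
  tfae_have 1 → 2 := by
    intro h1 b hb hba ψ h S _ ε hε
    obtain ⟨C, hC⟩ := h1 b hb hba
    refine Eventually.frequently ?_
    filter_upwards [ev_one, ev_C (by linarith : 0 < 2 * ε) C] with R hR hR2
    rw [mul_div_cancel_left₀ ε two_ne_zero] at hR2
    exact (hC R hR ψ h S).trans hR2
  tfae_have 2 → 4 := by
    intro h2 s hs _ ψ h S hN ε hε
    obtain ⟨b, hb, hba, hbt⟩ := exists_b ha hε s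
    refine ((h2 b hb hba ψ h S hN (ε / 2) (by linarith)).and_eventually ev_one).mono ?_
    rintro R ⟨h3, hR⟩
    exact comb (L_pos hR) hbt (young_ray S hR hb u hs) h3 le_rfl
  tfae_have 4 → 5 := by
    intro h4 R hR ψ h S s hs
    have hn := norm_su hs hu
    rcases le_or_gt s (2 * a) with h5 | h5
    · have h6 := h4 s hs h5
      have := near ha hκ (t := (s : ℂ) * u) (by rw [hn]; exact h5) (by rw [hn]; exact h6) hR S
      rwa [hn] at this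
    · have h6 := h4 (2 * a) (by linarith) le_rfl
      have e1 : (2 * a) ^ 2 / (4 * a) = a := by
        field_simp
        norm_num
      have hs0 : s ≠ 0 := by
        have : 0 < s := by linarith
        exact this.ne'
      have e2 : ((2 * a / ‖(s : ℂ) * u‖ : ℝ) : ℂ) * ((s : ℂ) * u) = ((2 * a : ℝ) : ℂ) * u := by
        rw [hn, ← mul_assoc, ← Complex.ofReal_mul, div_mul_cancel₀ _ hs0]
      rw [e1] at h6
      have := far ha hκ (t := (s : ℂ) * u) (by rw [hn]; exact h5) (by rw [e2]; exact h6) hR S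
      rwa [hn] at this
  tfae_have 5 → 1 := fun h5 b hb hba => sq_ray hb hba hu h5
  tfae_have 5 → 3 := by
    intro h5 s hs _
    exact AP_of_expl (by positivity) (fun R hR ψ h S => h5 R hR ψ h S s hs)
  tfae_have 3 → 4 := fun h3 s hs hs2 => (h3 s hs hs2).wp κ N
  tfae_finish

/-- all directions -/
theorem tfae_full {a κ : ℝ} (N : ℕ) (ha : 0 < a) (hκ : 0 < κ) :
    List.TFAE [
      ∀ b : ℝ, 0 < b → b < a → ∃ C : ℝ, ∀ R : ℝ, 1 < R → ∀ ψ h : ℂ → ℂ, IsSig ψ h → sM b R h ≤ C,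
      ∀ b : ℝ, 0 < b → b < a → ∃ C R₀ : ℝ, 1 < R₀ ∧ ∀ R : ℝ, 1 < R → R < R₀ →
        ∀ ψ h : ℂ → ℂ, IsSig ψ h → sM b R h ≤ C,
      ∀ b : ℝ, 0 < b → b < a → ∀ ψ h : ℂ → ℂ, IsSig ψ h →
        ∃ C : ℝ, ∀ᶠ R in 𝓝[>] (1 : ℝ), sM b R h ≤ C,
      ∀ b : ℝ, 0 < b → b < a → ∀ ψ h : ℂ → ℂ, IsSig ψ h → Test κ N ψ → ∀ ε : ℝ, 0 < ε →
        ∃ᶠ R in 𝓝[>] (1 : ℝ), sM b R h ≤ Real.exp (ε * Real.log (R ^ 2 / (R ^ 2 - 1))),
      ∀ t : ℂ, ‖t‖ ≤ 2 * a → AP t (‖t‖ ^ 2 / (4 * a)),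
      ∀ t : ℂ, ‖t‖ ≤ 2 * a → WP t (‖t‖ ^ 2 / (4 * a)) κ N,
      ∀ R : ℝ, 1 < R → ∀ ψ h : ℂ → ℂ, IsSig ψ h → ∀ t : ℂ, eM t R h ≤
        Real.exp (‖t‖ ^ 2 / (4 * a) * Er (Real.log (R ^ 2 / (R ^ 2 - 1))) + 2 * a)] := by
  tfae_have 1 → 2 := by
    intro h1 b hb hba
    obtain ⟨C, hC⟩ := h1 b hb hba
    exact ⟨C, 2, by norm_num, fun R hR _ ψ h S => hC R hR ψ h S⟩
  tfae_have 2 → 3 := by
    intro h2 b hb hba ψ h S
    obtain ⟨C, R₀, hR₀, hC⟩ := h2 b hb hba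
    refine ⟨C, ?_⟩
    have h3 : Iio R₀ ∈ 𝓝 (1 : ℝ) := Iio_mem_nhds hR₀
    filter_upwards [ev_one, mem_nhdsWithin_of_mem_nhds h3] with R hR hR2
    exact hC R hR hR2 ψ h S
  tfae_have 3 → 4 := by
    intro h3 b hb hba ψ h S _ ε hε
    obtain ⟨C, hC⟩ := h3 b hb hba ψ h S
    refine Eventually.frequently ?_
    filter_upwards [hC, ev_C (by linarith : 0 < 2 * ε) C] with R hR hR2
    rw [mul_div_cancel_left₀ ε two_ne_zero] at hR2
    exact hR.trans hR2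
  tfae_have 4 → 6 := by
    intro h2 t _ ψ h S hN ε hε
    obtain ⟨b, hb, hba, hbt⟩ := exists_b ha hε ‖t‖
    refine ((h2 b hb hba ψ h S hN (ε / 2) (by linarith)).and_eventually ev_one).mono ?_
    rintro R ⟨h3, hR⟩
    exact comb (L_pos hR) hbt (young_full S hR hb t) h3 le_rfl
  tfae_have 6 → 7 := by
    intro h4 R hR ψ h S t
    rcases le_or_gt ‖t‖ (2 * a) with h5 | h5
    · exact near ha hκ h5 (h4 t h5) hR S
    · have ht0 : 0 < ‖t‖ := by linarith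
      have e1 : (2 * a) ^ 2 / (4 * a) = a := by
        field_simp
        norm_num
      have e2 : ‖((2 * a / ‖t‖ : ℝ) : ℂ) * t‖ = 2 * a := by
        rw [norm_mul, Complex.norm_real, Real.norm_of_nonneg (by positivity),
          div_mul_cancel₀ _ ht0.ne']
      have h6 := h4 _ e2.le
      rw [e2, e1] at h6
      exact far ha hκ h5 h6 hR S
  tfae_have 7 → 1 := fun h5 b hb hba => sq_full hb hba h5
  tfae_have 7 → 5 := by
    intro h5 t _
    exact AP_of_expl (by positivity) (fun R hR ψ h S => h5 R hR ψ h S t)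
  tfae_have 5 → 6 := fun h3 t ht => (h3 t ht).wp κ N
  tfae_finish

/-- if the uniform bound fails, then the integrals of one self-similar function near the identity
grow like a power -/
theorem fails {a κ : ℝ} (N : ℕ) (ha : 0 < a) (hκ : 0 < κ)
    (hF : ¬ ∀ b : ℝ, 0 < b → b < a → ∃ C R₀ : ℝ, 1 < R₀ ∧ ∀ R : ℝ, 1 < R → R < R₀ →
        ∀ ψ h : ℂ → ℂ, IsSig ψ h → sM b R h ≤ C) :
    ∃ b : ℝ, 0 < b ∧ b < a ∧ ∃ ψ h : ℂ → ℂ, IsSig ψ h ∧ Test κ N ψ ∧ ∃ ε : ℝ, 0 < ε ∧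
      ∀ᶠ R in 𝓝[>] (1 : ℝ), Real.exp (ε * Real.log (R ^ 2 / (R ^ 2 - 1))) < sM b R h := by
  have h1 := (tfae_full N ha hκ).out 1 3
  rw [h1] at hF
  push Not at hF
  obtain ⟨b, hb, hba, ψ, h, S, hN, ε, hε, hC⟩ := hF
  exact ⟨b, hb, hba, ψ, h, S, hN, ε, hε, hC⟩

end Pool.Agent.W5h49.MB
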