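import Pool.Agent.W5h49.MB.A2
import Pool.Agent.R250.MC4

set_option autoImplicit false

/-! # The self-similar map of the class `Σ` -/

namespace Pool.Agent.W5h49.MB

open Complex Metric Set Filter Topology MeasureTheory
open Pool.Agent.W677.Mar

variable {R₁ B D δ : ℝ} {k U Θ : ℂ → ℂ} {n : ℕ}

/-- the map in disc coordinates -/
noncomputable def TT (Θ : ℂ → ℂ) (v : ℂ) : ℂ := v * Complex.exp (Θ v)

/-- `1 + v Θ'(v)` -/
noncomputable def Nn (Θ : ℂ → ℂ) (v : ℂ) : ℂ := 1 + v * deriv Θ v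

/-- the series of the logarithm -/
noncomputable def nu (U Θ : ℂ → ℂ) (n : ℕ) (v : ℂ) : ℂ := ∑' j : ℕ, U (TT Θ (v ^ n ^ (j + 1)))

theorem TT_mem (P : Par R₁ B D δ n) (F : Fix k n δ Θ) {x : ℂ} (hx : x ∈ ball (0 : ℂ) 1) :
    TT Θ x ∈ ball (0 : ℂ) R₁ := mul_exp_mem P.δR hx (F.le x hx)

theorem TT_diff (F : Fix k n δ Θ) : DifferentiableOn ℂ (TT Θ) (ball 0 1) :=
  differentiableOn_id.mul F.d.cexp

theorem TT_le (P : Par R₁ B D δ n) (F : Fix k n δ Θ) {x : ℂ} (hx : x ∈ ball (0 : ℂ) 1) :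
    ‖TT Θ x‖ ≤ 3 * ‖x‖ := by
  unfold TT
  rw [norm_mul, Complex.norm_exp, mul_comm]
  apply mul_le_mul_of_nonneg_right _ (norm_nonneg _)
  have h1 : (Θ x).re ≤ 1 := ((re_le_norm _).trans (F.le x hx)).trans P.δ1
  have h2 := Real.exp_le_exp.2 h1
  have h3 := Real.exp_one_lt_d9
  linarith

theorem TT_zero (Θ : ℂ → ℂ) : TT Θ 0 = 0 := by simp [TT]

theorem UT_le (K : Blk R₁ B D k U) (P : Par R₁ B D δ n) (F : Fix k n δ Θ) {x : ℂ}
    (hx : x ∈ ball (0 : ℂ) 1) : ‖U (TT Θ x)‖ ≤ 3 * D * ‖x‖ := by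
  have hR : (0 : ℂ) ∈ ball (0 : ℂ) R₁ := mem_ball_self (by linarith [K.R])
  have h1 := K.UL _ (TT_mem P F hx) 0 hR
  rw [K.U0, sub_zero, sub_zero] at h1
  have h2 := TT_le P F hx
  have h3 := mul_le_mul_of_nonneg_left h2 K.D0
  linarith

theorem term_le (K : Blk R₁ B D k U) (P : Par R₁ B D δ n) (F : Fix k n δ Θ) {s : ℝ} (hs1 : s < 1)
    {v : ℂ} (hv : ‖v‖ ≤ s) (j : ℕ) : ‖U (TT Θ (v ^ n ^ (j + 1)))‖ ≤ 3 * D * s ^ j := by
  have hs0 : 0 ≤ s := (norm_nonneg _).trans hv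
  have hvb : v ∈ ball (0 : ℂ) 1 := mem_ball_zero_iff.2 (hv.trans_lt hs1)
  have hn1 : 1 < n := by have := P.n2; omega
  have hne : n ^ (j + 1) ≠ 0 := pow_ne_zero _ (by omega)
  have h1 := UT_le K P F (pow_mem hvb hne)
  refine h1.trans ?_
  apply mul_le_mul_of_nonneg_left _ (by linarith [K.D0])
  rw [norm_pow]
  have h2 : j < n ^ (j + 1) := (Nat.lt_pow_self hn1).trans (Nat.pow_lt_pow_right hn1 (by omega))
  calc ‖v‖ ^ n ^ (j + 1) ≤ s ^ n ^ (j + 1) := pow_le_pow_left₀ (norm_nonneg _) hv _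
    _ ≤ s ^ j := pow_le_pow_of_le_one hs0 hs1.le h2.le

theorem summ (K : Blk R₁ B D k U) (P : Par R₁ B D δ n) (F : Fix k n δ Θ) {v : ℂ}
    (hv : v ∈ ball (0 : ℂ) 1) : Summable fun j : ℕ => U (TT Θ (v ^ n ^ (j + 1))) := by
  have h1 : ‖v‖ < 1 := mem_ball_zero_iff.1 hv
  exact Summable.of_norm_bounded
    ((summable_geometric_of_lt_one (norm_nonneg v) h1).mul_left (3 * D))
    (fun j => term_le K P F h1 le_rfl j)

theorem nu_rec (K : Blk R₁ B D k U) (P : Par R₁ B D δ n) (F : Fix k n δ Θ) {v : ℂ}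
    (hv : v ∈ ball (0 : ℂ) 1) : nu U Θ n v = U (TT Θ (v ^ n)) + nu U Θ n (v ^ n) := by
  unfold nu
  rw [(summ K P F hv).tsum_eq_zero_add]
  congr 1
  · simp
  · refine tsum_congr fun j => ?_
    rw [← pow_mul]
    congr 3
    rw [pow_succ' n (j + 1)]

theorem nu_zero (K : Blk R₁ B D k U) (P : Par R₁ B D δ n) : nu U Θ n 0 = 0 := by
  have hn0 : n ≠ 0 := by have := P.n2; omega
  unfold nu
  have : ∀ j : ℕ, U (TT Θ (0 ^ n ^ (j + 1))) = 0 := by
    intro j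
    rw [zero_pow (pow_ne_zero _ hn0), TT_zero, K.U0]
  simp [this]

theorem nu_diff (K : Blk R₁ B D k U) (P : Par R₁ B D δ n) (F : Fix k n δ Θ) :
    DifferentiableOn ℂ (nu U Θ n) (ball 0 1) := by
  intro v hv
  have h1 : ‖v‖ < 1 := mem_ball_zero_iff.1 hv
  obtain ⟨s, hs0, hs1⟩ := exists_between h1
  have hvs : v ∈ ball (0 : ℂ) s := mem_ball_zero_iff.2 hs0
  have hd : DifferentiableOn ℂ (nu U Θ n) (ball 0 s) := by
    apply differentiableOn_tsum_of_summable_norm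
      ((summable_geometric_of_lt_one ((norm_nonneg v).trans hs0.le) hs1).mul_left (3 * D))
      _ isOpen_ball (fun j w hw => term_le K P F hs1 (mem_ball_zero_iff.1 hw).le j)
    intro j w hw
    have hwb : w ∈ ball (0 : ℂ) 1 := mem_ball_zero_iff.2 ((mem_ball_zero_iff.1 hw).trans hs1)
    have hne : n ^ (j + 1) ≠ 0 := pow_ne_zero _ (by have := P.n2; omega)
    have hx := pow_mem hwb hne
    have d1 : DifferentiableAt ℂ (fun w : ℂ => w ^ n ^ (j + 1)) w := by fun_prop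
    have d2 : DifferentiableAt ℂ (TT Θ) (w ^ n ^ (j + 1)) :=
      (TT_diff F).differentiableAt (isOpen_ball.mem_nhds hx)
    have d3 : DifferentiableAt ℂ U (TT Θ (w ^ n ^ (j + 1))) :=
      K.dU.differentiableAt (isOpen_ball.mem_nhds (TT_mem P F hx))
    exact (d3.comp w (d2.comp w d1)).differentiableWithinAt
  exact (hd.differentiableAt (isOpen_ball.mem_nhds hvs)).differentiableWithinAt

theorem Nn_rec (K : Blk R₁ B D k U) (P : Par R₁ B D δ n) (F : Fix k n δ Θ) {v : ℂ}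
    (hv : v ∈ ball (0 : ℂ) 1) : Nn Θ v = Nn Θ (v ^ n) * Complex.exp (U (TT Θ (v ^ n))) := by
  have hn0 : n ≠ 0 := by have := P.n2; omega
  have hnC : (n : ℂ) ≠ 0 := Nat.cast_ne_zero.2 hn0
  have hx := pow_mem hv hn0
  have d0 : HasDerivAt Θ (deriv Θ v) v :=
    (F.d.differentiableAt (isOpen_ball.mem_nhds hv)).hasDerivAt
  have d1 : HasDerivAt Θ (deriv Θ (v ^ n)) (v ^ n) :=
    (F.d.differentiableAt (isOpen_ball.mem_nhds hx)).hasDerivAt
  have d2 : HasDerivAt k (deriv k (TT Θ (v ^ n))) (TT Θ (v ^ n)) :=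
    (K.dk.differentiableAt (isOpen_ball.mem_nhds (TT_mem P F hx))).hasDerivAt
  have d3 : HasDerivAt (fun w : ℂ => w ^ n) (n * v ^ (n - 1)) v := hasDerivAt_pow n v
  have d4 : HasDerivAt (fun w : ℂ => Θ (w ^ n)) (deriv Θ (v ^ n) * (n * v ^ (n - 1))) v :=
    d1.comp v d3
  have d5 : HasDerivAt (fun w : ℂ => w ^ n * Complex.exp (Θ (w ^ n)))
      (n * v ^ (n - 1) * Complex.exp (Θ (v ^ n)) + v ^ n * (Complex.exp (Θ (v ^ n)) *
        (deriv Θ (v ^ n) * (n * v ^ (n - 1))))) v := d3.mul d4.cexp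
  have d6 : HasDerivAt (fun w : ℂ => k (w ^ n * Complex.exp (Θ (w ^ n))))
      (deriv k (TT Θ (v ^ n)) * (n * v ^ (n - 1) * Complex.exp (Θ (v ^ n)) + v ^ n *
        (Complex.exp (Θ (v ^ n)) * (deriv Θ (v ^ n) * (n * v ^ (n - 1)))))) v :=
    HasDerivAt.comp v (h₂ := k) d2 d5
  have d7 := d4.sub d6
  have d8 : HasDerivAt (fun w : ℂ => (n : ℂ) * Θ w) (n * deriv Θ v) v := d0.const_mul _
  have e1 : (fun w : ℂ => (n : ℂ) * Θ w) =ᶠ[𝓝 v]
      fun w => Θ (w ^ n) - k (w ^ n * Complex.exp (Θ (w ^ n))) := by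
    filter_upwards [isOpen_ball.mem_nhds hv] with w hw using F.eq w hw
  have h1 := d8.unique (d7.congr_of_eventuallyEq e1)
  have hp : v * v ^ (n - 1) = v ^ n := by
    rw [← pow_succ']
    congr 1
    omega
  have h2 := K.eq _ (TT_mem P F hx)
  rw [← h2]
  have h3 : v * deriv Θ v = v ^ n * deriv Θ (v ^ n) - deriv k (TT Θ (v ^ n)) *
      (v ^ n * Complex.exp (Θ (v ^ n)) * (1 + v ^ n * deriv Θ (v ^ n))) := by
    apply mul_left_cancel₀ hnC
    have h4 : (n : ℂ) * (v * deriv Θ v) = v * (n * deriv Θ v) := by ring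
    rw [h4, h1, ← hp]
    ring
  unfold Nn
  rw [h3]
  unfold TT
  ring

theorem exp_nu (K : Blk R₁ B D k U) (P : Par R₁ B D δ n) (F : Fix k n δ Θ) {v : ℂ}
    (hv : v ∈ ball (0 : ℂ) 1) : Complex.exp (nu U Θ n v) = Nn Θ v := by
  have hn0 : n ≠ 0 := by have := P.n2; omega
  have hn1 : 1 < n := by have := P.n2; omega
  have h00 : (0 : ℂ) ∈ ball (0 : ℂ) 1 := mem_ball_self one_pos
  set g : ℂ → ℂ := fun v => Nn Θ v * Complex.exp (-nu U Θ n v) with hg
  have hgc : ContinuousAt g 0 := by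
    have c1 : ContinuousAt (deriv Θ) 0 :=
      ((F.d.deriv isOpen_ball).continuousOn).continuousAt (isOpen_ball.mem_nhds h00)
    have c2 : ContinuousAt (nu U Θ n) 0 :=
      (nu_diff K P F).continuousOn.continuousAt (isOpen_ball.mem_nhds h00)
    have c3 : ContinuousAt (Nn Θ) 0 := continuousAt_const.add (continuousAt_id.mul c1)
    exact c3.mul (Complex.continuous_exp.continuousAt.comp c2.neg)
  have hg0 : g 0 = 1 := by
    simp only [hg, Nn, nu_zero K P, zero_mul, add_zero, neg_zero, Complex.exp_zero, mul_one]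
  have hrec : ∀ w ∈ ball (0 : ℂ) 1, g w = g (w ^ n) := by
    intro w hw
    simp only [hg]
    rw [Nn_rec K P F hw, nu_rec K P F hw, neg_add, Complex.exp_add, Complex.exp_neg (U _)]
    field_simp
  have hit : ∀ j : ℕ, g v = g (v ^ n ^ j) := by
    intro j
    induction j with
    | zero => simp
    | succ j ih =>
      rw [ih, hrec _ (pow_mem hv (pow_ne_zero _ hn0)), ← pow_mul, ← pow_succ]
  have hlim : Tendsto (fun j : ℕ => v ^ n ^ j) atTop (𝓝 0) := by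
    have h1 := tendsto_pow_atTop_nhds_zero_of_norm_lt_one (mem_ball_zero_iff.1 hv)
    exact h1.comp (tendsto_pow_atTop_atTop_of_one_lt hn1)
  have h2 : Tendsto (fun j : ℕ => g (v ^ n ^ j)) atTop (𝓝 (g 0)) := hgc.tendsto.comp hlim
  have h3 : g v = 1 := by
    rw [← hg0]
    refine tendsto_nhds_unique ?_ h2
    exact tendsto_const_nhds.congr hit
  simp only [hg] at h3
  rw [Complex.exp_neg] at h3
  have h4 := Complex.exp_ne_zero (nu U Θ n v)
  field_simp at h3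
  exact h3.symm

/-- injectivity of the self-similar map -/
theorem TT_inj (K : Blk R₁ B D k U) (P : Par R₁ B D δ n) (F : Fix k n δ Θ) {v v' : ℂ}
    (hv : v ∈ ball (0 : ℂ) 1) (hv' : v' ∈ ball (0 : ℂ) 1) (h0 : v ≠ 0) (h0' : v' ≠ 0)
    (h : TT Θ v = TT Θ v') : v = v' := by
  have hn0 : n ≠ 0 := by have := P.n2; omega
  have hn1 : 1 < n := by have := P.n2; omega
  have h00 : (0 : ℂ) ∈ ball (0 : ℂ) 1 := mem_ball_self one_pos
  -- power of the map
  have hpow : ∀ w ∈ ball (0 : ℂ) 1, TT Θ w ^ n = TT Θ (w ^ n) * Complex.exp (-k (TT Θ (w ^ n))) := by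
    intro w hw
    have h1 := F.eq w hw
    unfold TT
    rw [mul_pow, ← Complex.exp_nat_mul, h1, mul_assoc, ← Complex.exp_add]
    congr 1
  have hne : ∀ w : ℂ, w ≠ 0 → TT Θ w ≠ 0 := fun w hw => mul_ne_zero hw (Complex.exp_ne_zero _)
  -- one step up
  have up : ∀ w ∈ ball (0 : ℂ) 1, ∀ w' ∈ ball (0 : ℂ) 1, w ≠ 0 → w' ≠ 0 → TT Θ w = TT Θ w' →
      TT Θ (w ^ n) = TT Θ (w' ^ n) := by
    intro w hw w' hw' h0 h0' he
    have h1 := hpow w hw
    rw [he, hpow w' hw'] at h1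
    exact (K.inj ⟨TT_mem P F (pow_mem hw' hn0), hne _ (pow_ne_zero _ h0')⟩
      ⟨TT_mem P F (pow_mem hw hn0), hne _ (pow_ne_zero _ h0)⟩ h1).symm
  have ups : ∀ j : ℕ, TT Θ (v ^ n ^ j) = TT Θ (v' ^ n ^ j) := by
    intro j
    induction j with
    | zero => simpa using h
    | succ j ih =>
      have := up _ (pow_mem hv (pow_ne_zero _ hn0)) _ (pow_mem hv' (pow_ne_zero _ hn0))
        (pow_ne_zero _ h0) (pow_ne_zero _ h0') ih
      rwa [← pow_mul, ← pow_mul, ← pow_succ] at this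
  -- one step down
  have down : ∀ w ∈ ball (0 : ℂ) 1, ∀ w' ∈ ball (0 : ℂ) 1, TT Θ w = TT Θ w' → w ^ n = w' ^ n →
      w = w' := by
    intro w hw w' hw' he hp
    have h1 := F.eq w hw
    have h2 := F.eq w' hw'
    rw [hp, ← h2] at h1
    have h3 : Θ w = Θ w' := mul_left_cancel₀ (Nat.cast_ne_zero.2 hn0) h1
    unfold TT at he
    rw [h3] at he
    exact mul_right_cancel₀ (Complex.exp_ne_zero _) he
  -- local injectivity at zero
  have hloc : ∀ᶠ p : ℂ × ℂ in 𝓝 ((0 : ℂ), (0 : ℂ)), TT Θ p.1 = TT Θ p.2 → p.1 = p.2 := by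
    have hder : HasDerivAt (TT Θ) 1 0 := by
      have d0 : HasDerivAt Θ (deriv Θ 0) 0 :=
        (F.d.differentiableAt (isOpen_ball.mem_nhds h00)).hasDerivAt
      have h1 := (hasDerivAt_id (0 : ℂ)).mul d0.cexp
      have h2 : HasDerivAt (TT Θ) (1 * Complex.exp (Θ 0) + id 0 * (Complex.exp (Θ 0) * deriv Θ 0)) 0 :=
        h1
      rw [F.zero, Complex.exp_zero, id_eq, zero_mul, add_zero, mul_one] at h2
      exact h2
    have hs : HasStrictDerivAt (TT Θ) 1 0 := by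
      have h1 : AnalyticAt ℂ (TT Θ) 0 := (TT_diff F).analyticAt (isOpen_ball.mem_nhds h00)
      have h2 := h1.hasStrictDerivAt
      rwa [hder.deriv] at h2
    have h1 := hs.isLittleO.def (c := 1 / 2) (by norm_num)
    filter_upwards [h1] with p hp he
    rw [he, sub_self, zero_sub, norm_neg, ContinuousLinearMap.toSpanSingleton_apply, smul_eq_mul,
      mul_one] at hp
    have h2 : ‖p.1 - p.2‖ = 0 := by
      have := norm_nonneg (p.1 - p.2)
      linarith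
    exact sub_eq_zero.1 (norm_eq_zero.1 h2)
  have hlim : ∀ w ∈ ball (0 : ℂ) 1, Tendsto (fun j : ℕ => w ^ n ^ j) atTop (𝓝 0) := by
    intro w hw
    have h1 := tendsto_pow_atTop_nhds_zero_of_norm_lt_one (mem_ball_zero_iff.1 hw)
    exact h1.comp (tendsto_pow_atTop_atTop_of_one_lt hn1)
  have h1 : Tendsto (fun j : ℕ => (v ^ n ^ j, v' ^ n ^ j)) atTop (𝓝 ((0 : ℂ), (0 : ℂ))) :=
    (hlim v hv).prodMk_nhds (hlim v' hv')
  obtain ⟨J, hJ⟩ := (h1.eventually hloc).exists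
  have h2 : v ^ n ^ J = v' ^ n ^ J := hJ (ups J)
  clear hJ
  induction J with
  | zero => simpa using h2
  | succ J ih =>
    apply ih
    apply down _ (pow_mem hv (pow_ne_zero _ hn0)) _ (pow_mem hv' (pow_ne_zero _ hn0)) (ups J)
    rwa [← pow_mul, ← pow_mul, ← pow_succ]

open Pool.Agent.R250.MC in
/-- the self-similar map is in `Σ` -/
theorem sig (K : Blk R₁ B D k U) (P : Par R₁ B D δ n) (F : Fix k n δ Θ) :
    IsSig (fun z => z * Complex.exp (-Θ z⁻¹)) (fun z => nu U Θ n z⁻¹ - Θ z⁻¹) := by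
  have h00 : (0 : ℂ) ∈ ball (0 : ℂ) 1 := mem_ball_self one_pos
  have hinv : ∀ z : ℂ, 1 < ‖z‖ → z⁻¹ ∈ ball (0 : ℂ) 1 := by
    intro z hz
    rw [mem_ball_zero_iff, norm_inv]
    exact inv_lt_one_of_one_lt₀ hz
  have hz0 : ∀ z : ℂ, 1 < ‖z‖ → z ≠ 0 := by
    intro z hz h
    rw [h, norm_zero] at hz
    linarith
  have hΘ : ∀ z : ℂ, 1 < ‖z‖ → HasDerivAt (fun z => Θ z⁻¹) (deriv Θ z⁻¹ * -(z ^ 2)⁻¹) z := by
    intro z hz
    have d0 : HasDerivAt Θ (deriv Θ z⁻¹) z⁻¹ :=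
      (F.d.differentiableAt (isOpen_ball.mem_nhds (hinv z hz))).hasDerivAt
    exact d0.comp z (hasDerivAt_inv (hz0 z hz))
  have hψ : ∀ z : ℂ, 1 < ‖z‖ → HasDerivAt (fun z => z * Complex.exp (-Θ z⁻¹))
      (Complex.exp (-Θ z⁻¹) * Nn Θ z⁻¹) z := by
    intro z hz
    have h0 : HasDerivAt (fun z : ℂ => Complex.exp (-Θ z⁻¹))
        (Complex.exp (-Θ z⁻¹) * -(deriv Θ z⁻¹ * -(z ^ 2)⁻¹)) z := (hΘ z hz).neg.cexp
    have h1 : HasDerivAt (fun z : ℂ => z * Complex.exp (-Θ z⁻¹))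
        (1 * Complex.exp (-Θ z⁻¹) + z * (Complex.exp (-Θ z⁻¹) * -(deriv Θ z⁻¹ * -(z ^ 2)⁻¹))) z :=
      (hasDerivAt_id z).mul h0
    refine h1.congr_deriv ?_
    have := hz0 z hz
    simp only [Nn]
    field_simp
  refine ⟨?_, ?_, ?_, ?_, ?_, ?_⟩
  · intro z hz
    exact (hψ z hz).differentiableAt.differentiableWithinAt
  · intro z hz z' hz' he
    have e1 : ∀ w : ℂ, w * Complex.exp (-Θ w⁻¹) = (TT Θ w⁻¹)⁻¹ := by
      intro w
      unfold TT
      rw [mul_inv, inv_inv, Complex.exp_neg]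
    simp only [e1] at he
    have h1 := TT_inj K P F (hinv z hz) (hinv z' hz') (inv_ne_zero (hz0 z hz))
      (inv_ne_zero (hz0 z' hz')) (inv_injective he)
    exact inv_injective h1
  · refine ⟨-deriv Θ 0, ?_⟩
    have d0 : HasDerivAt Θ (deriv Θ 0) 0 :=
      (F.d.differentiableAt (isOpen_ball.mem_nhds h00)).hasDerivAt
    have d1 : HasDerivAt (fun v => Complex.exp (-Θ v)) (-deriv Θ 0) 0 := by
      have := d0.neg.cexp
      simpa [F.zero] using this
    have h1 := hasDerivAt_iff_tendsto_slope.1 d1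
    have h2 : Tendsto (fun z : ℂ => z⁻¹) (Bornology.cobounded ℂ) (𝓝[≠] 0) :=
      tendsto_inv₀_cobounded'
    refine (h1.comp h2).congr' ?_
    have h3 : ∀ᶠ z : ℂ in Bornology.cobounded ℂ, 1 < ‖z‖ :=
      tendsto_norm_cobounded_atTop.eventually_gt_atTop 1
    filter_upwards [h3] with z hz
    have := hz0 z hz
    simp only [Function.comp_apply, slope_def_field, F.zero, neg_zero, Complex.exp_zero, sub_zero]
    field_simp
  · intro z hz
    have d1 : DifferentiableAt ℂ (nu U Θ n) z⁻¹ :=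
      (nu_diff K P F).differentiableAt (isOpen_ball.mem_nhds (hinv z hz))
    have d2 : DifferentiableAt ℂ (fun z : ℂ => nu U Θ n z⁻¹) z :=
      d1.comp z (hasDerivAt_inv (hz0 z hz)).differentiableAt
    exact (d2.sub (hΘ z hz).differentiableAt).differentiableWithinAt
  · intro z hz
    show Complex.exp (nu U Θ n z⁻¹ - Θ z⁻¹) = _
    rw [(hψ z hz).deriv, sub_eq_add_neg, Complex.exp_add, exp_nu K P F (hinv z hz), mul_comm]
  · have h2 : Tendsto (fun z : ℂ => z⁻¹) (Bornology.cobounded ℂ) (𝓝 0) :=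
      tendsto_inv₀_cobounded'.mono_right nhdsWithin_le_nhds
    have c1 : ContinuousAt (fun v => nu U Θ n v - Θ v) 0 :=
      (((nu_diff K P F).sub F.d).continuousOn).continuousAt (isOpen_ball.mem_nhds h00)
    have h3 := c1.tendsto.comp h2
    rw [nu_zero K P, F.zero, sub_zero] at h3
    exact h3

end Pool.Agent.W5h49.MB
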