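import Pool.Agent.W5h49.MB.A4

set_option autoImplicit false

/-! # The bound for one block -/

namespace Pool.Agent.W5h49.MB

open Complex Metric Set Filter Topology MeasureTheory
open Pool.Agent.W677.Mar

variable {R₁ B D δ : ℝ} {k U Θ : ℂ → ℂ} {n : ℕ}

theorem lam_tendsto : Tendsto (fun r : ℝ => lam (r ^ 2)) (𝓝[<] (1 : ℝ)) atTop := by
  have h1 : Tendsto (fun r : ℝ => 1 - r ^ 2) (𝓝[<] (1 : ℝ)) (𝓝[>] 0) := by
    rw [tendsto_nhdsWithin_iff]
    constructor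
    · have : Tendsto (fun r : ℝ => 1 - r ^ 2) (𝓝 1) (𝓝 (1 - 1 ^ 2)) := by
        apply Continuous.tendsto
        fun_prop
      rw [one_pow, sub_self] at this
      exact this.mono_left nhdsWithin_le_nhds
    · have h0 : ∀ᶠ r : ℝ in 𝓝[<] 1, 0 < r := by
        have : Ioi (0 : ℝ) ∈ 𝓝 (1 : ℝ) := Ioi_mem_nhds zero_lt_one
        exact mem_nhdsWithin_of_mem_nhds this
      filter_upwards [self_mem_nhdsWithin, h0] with r hr hr0
      have hr1 : r < 1 := hr
      show 0 < 1 - r ^ 2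
      nlinarith
  have h2 := Real.tendsto_log_nhdsGT_zero.comp h1
  exact tendsto_neg_atBot_atTop.comp h2

theorem block_bound (K : Blk R₁ B D k U) (P : Par R₁ B D δ n) (F : Fix k n δ Θ) (t : ℂ) {γ : ℝ}
    (hγ : 0 ≤ γ)
    (h : ∀ ε > 0, ∃ᶠ r in 𝓝[<] (1:ℝ), Mn t (fun v => nu U Θ n v - Θ v) r ≤
      2 * Real.pi * Real.exp ((γ + ε) * lam (r ^ 2))) :
    Mn t U 1 ≤ 2 * Real.pi * Real.exp (γ * Real.log n + ‖t‖ * (D * (3 * δ + 8 / n))) := by
  have hpi := Real.pi_pos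
  by_contra hcon
  push Not at hcon
  have hn0 : n ≠ 0 := by have := P.n2; omega
  have hn1 : 1 < n := by have := P.n2; omega
  have hn1R : (1 : ℝ) < n := by exact_mod_cast hn1
  have hnR : (0 : ℝ) < n := by linarith
  obtain ⟨c, hc⟩ : ∃ c, c = ‖t‖ * (D * (3 * δ + 8 / n)) := ⟨_, rfl⟩
  obtain ⟨q, hq⟩ : ∃ q, q = Real.exp (-c) * Mn t U 1 / (2 * Real.pi) := ⟨_, rfl⟩
  obtain ⟨N, hN⟩ : ∃ N, N = Real.log n := ⟨_, rfl⟩
  have hN0 : 0 < N := by rw [hN]; exact Real.log_pos hn1R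
  rw [← hc, ← hN] at hcon
  have hq1 : Real.exp (γ * N) < q := by
    rw [hq, lt_div_iff₀ (by positivity)]
    have h1 : Real.exp (-c) * (2 * Real.pi * Real.exp (γ * N + c)) = Real.exp (γ * N) * (2 * Real.pi) := by
      rw [Real.exp_add, Real.exp_neg]
      field_simp
    rw [← h1]
    exact mul_lt_mul_of_pos_left hcon (Real.exp_pos _)
  have hq0 : 0 < q := (Real.exp_pos _).trans hq1
  obtain ⟨l, hl⟩ : ∃ l, l = Real.log q := ⟨_, rfl⟩
  have hlN : γ * N < l := by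
    rw [hl, Real.lt_log_iff_exp_lt hq0]
    exact hq1
  have hl0 : 0 < l := lt_of_le_of_lt (by positivity) hlN
  have hql : q = Real.exp l := by rw [hl, Real.exp_log hq0]
  obtain ⟨ε, hε⟩ : ∃ ε, ε = (l / N - γ) / 2 := ⟨_, rfl⟩
  have hε0 : 0 < ε := by
    rw [hε]
    have : γ < l / N := by rwa [lt_div_iff₀ hN0]
    linarith
  have hlε : l = (γ + 2 * ε) * N := by
    rw [hε]
    field_simp
    ring
  have e1 : ∀ᶠ r : ℝ in 𝓝[<] 1, r < 1 := self_mem_nhdsWithin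
  have e2 : ∀ᶠ r : ℝ in 𝓝[<] 1, 1 - 1 / (n : ℝ) < r := by
    have : Ioi (1 - 1 / (n : ℝ)) ∈ 𝓝 (1 : ℝ) := Ioi_mem_nhds (by
      have : 0 < 1 / (n : ℝ) := by positivity
      linarith)
    exact mem_nhdsWithin_of_mem_nhds this
  have e3 : ∀ᶠ r : ℝ in 𝓝[<] 1, (2 * l + ‖t‖ * δ) / ε < lam (r ^ 2) :=
    lam_tendsto.eventually_gt_atTop _
  obtain ⟨r, hr, hr1, hrn, hrL⟩ := ((h ε hε0).and_eventually (e1.and (e2.and e3))).exists
  have hr0 : 0 < r := by
    have h1 : 1 / (n : ℝ) < 1 := by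
      rw [div_lt_one hnR]
      exact hn1R
    linarith
  obtain ⟨L, hL⟩ : ∃ L, L = lam (r ^ 2) := ⟨_, rfl⟩
  rw [← hL] at hr hrL
  rw [div_lt_iff₀ hε0] at hrL
  -- the number of steps
  have hex : ∃ j : ℕ, r ^ n ^ j < 1 - 1 / (n : ℝ) := by
    have h1 := tendsto_pow_atTop_nhds_zero_of_lt_one hr0.le hr1
    have h2 := h1.comp (tendsto_pow_atTop_atTop_of_one_lt hn1)
    have h3 : 0 < 1 - 1 / (n : ℝ) := by
      have h1 : 1 / (n : ℝ) < 1 := by
        rw [div_lt_one hnR]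
        exact hn1R
      linarith
    exact (h2.eventually_lt_const h3).exists
  obtain ⟨j, hj, hjm⟩ : ∃ j : ℕ, r ^ n ^ j < 1 - 1 / (n : ℝ) ∧
      ∀ i < j, ¬ r ^ n ^ i < 1 - 1 / (n : ℝ) := by
    classical
    exact ⟨Nat.find hex, Nat.find_spec hex, fun i hi => Nat.find_min hex hi⟩
  obtain ⟨J, rfl⟩ : ∃ J, j = J + 1 := by
    cases j with
    | zero =>
      rw [pow_zero, pow_one] at hj
      linarith
    | succ J => exact ⟨J, rfl⟩
  have hJ : 1 - 1 / (n : ℝ) ≤ r ^ n ^ J := not_lt.1 (hjm J (Nat.lt_succ_self J))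
  have hBer : 1 + ((n ^ (J + 1) : ℕ) : ℝ) * (r - 1) ≤ (1 + (r - 1)) ^ n ^ (J + 1) :=
    one_add_mul_le_pow (by linarith) _
  have hLJ : L < (J + 2) * N := by
    have h0 : 0 < 1 - r := by linarith
    have h1 : 1 / (n : ℝ) < (n : ℝ) ^ (J + 1) * (1 - r) := by
      rw [add_sub_cancel] at hBer
      push_cast at hBer
      linarith
    have h2 : 1 < (n : ℝ) ^ (J + 2) * (1 - r) := by
      rw [div_lt_iff₀ hnR] at h1
      calc 1 < (n : ℝ) ^ (J + 1) * (1 - r) * n := h1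
        _ = _ := by ring
    have h3 := Real.log_pos h2
    rw [Real.log_mul (by positivity) h0.ne', Real.log_pow, ← hN] at h3
    have h4 : L ≤ -Real.log (1 - r) := by
      rw [hL, lam]
      have := Real.log_le_log h0 (by nlinarith : 1 - r ≤ 1 - r ^ 2)
      linarith
    push_cast at h3
    linarith
  have hit := Mn_iter K P F t J r hr0.le hr1 hJ
  rw [← hc, ← hq, hql, ← Real.exp_nat_mul] at hit
  have hcl := Mn_close (F := nu U Θ n) (G := fun v => nu U Θ n v - Θ v) (t := t) (r := r) (s := r)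
    (c := δ) (Mn_cont (nu_diff K P F).continuousOn t hr0.le hr1)
    (Mn_cont ((nu_diff K P F).sub F.d).continuousOn t hr0.le hr1) (by
      intro θ
      rw [sub_sub_cancel]
      apply F.le
      rw [mem_ball_zero_iff, norm_pt r θ hr0.le]
      exact hr1)
  have h5 : 2 * Real.pi * Real.exp (-(‖t‖ * δ) + J * l) ≤
      2 * Real.pi * Real.exp ((γ + ε) * L) := by
    refine le_trans ?_ (hcl.trans hr)
    rw [Real.exp_add]
    calc _ = Real.exp (-(‖t‖ * δ)) * (2 * Real.pi * Real.exp (J * l)) := by ring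
      _ ≤ _ := mul_le_mul_of_nonneg_left hit (Real.exp_pos _).le
  have h6 := Real.exp_le_exp.1 (le_of_mul_le_mul_left h5 (by positivity))
  -- contradiction
  have h7 : (L / N - 2) * l < J * l := by
    apply mul_lt_mul_of_pos_right _ hl0
    have : L / N < J + 2 := by rwa [div_lt_iff₀ hN0]
    linarith
  have h8 : (L / N - 2) * l = L * (γ + 2 * ε) - 2 * l := by
    rw [sub_mul]
    congr 1
    rw [hlε]
    field_simp
  rw [h8] at h7
  nlinarith

end Pool.Agent.W5h49.MB
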