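import Pool.Agent.W5h49.MB.A7
import Pool.Agent.W5h49.MB.A3b

set_option autoImplicit false

/-! # From one function at a time to uniform means -/

namespace Pool.Agent.W5h49.MB

open Complex Metric Set Filter Topology MeasureTheory
open Pool.Agent.W677.Mar Pool.Agent.R250.MC

variable {Y H : ℂ → ℂ} {f : ℂ × ℂ → ℂ}

/-- exponential mean in the exterior -/
noncomputable def eM (t : ℂ) (R : ℝ) (h : ℂ → ℂ) : ℝ :=
  (1 / (2 * Real.pi)) * ∫ θ in (0:ℝ)..(2 * Real.pi),
    Real.exp ((starRingEnd ℂ) t * h ((R : ℂ) * Complex.exp ((θ : ℂ) * Complex.I))).re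

/-- the weak one function hypothesis -/
def WP (t : ℂ) (β κ : ℝ) (N : ℕ) : Prop :=
  ∀ ψ h : ℂ → ℂ, IsSig ψ h → Test κ N ψ →
    ∀ ε : ℝ, 0 < ε → ∃ᶠ R in 𝓝[>] (1 : ℝ),
      eM t R h ≤ Real.exp ((β + ε) * Real.log (R ^ 2 / (R ^ 2 - 1)))

theorem eM_eq (t : ℂ) {R : ℝ} (hR : 1 < R) (h : ℂ → ℂ) :
    eM t R h = (1 / (2 * Real.pi)) * Mn t (hat h 0) R⁻¹ := by
  unfold eM Mn
  rw [circ_int h hR (fun w => Real.exp ((starRingEnd ℂ) t * w).re)]

theorem tendsto_inv_one : Tendsto (fun R : ℝ => R⁻¹) (𝓝[>] (1 : ℝ)) (𝓝[<] (1 : ℝ)) := by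
  rw [tendsto_nhdsWithin_iff]
  constructor
  · have : Tendsto (fun r : ℝ => r⁻¹) (𝓝 1) (𝓝 (1⁻¹)) := tendsto_inv₀ one_ne_zero
    rw [inv_one] at this
    exact this.mono_left nhdsWithin_le_nhds
  · filter_upwards [self_mem_nhdsWithin] with R hR
    have hR1 : 1 < R := hR
    exact inv_lt_one_of_one_lt₀ hR1

theorem ell_ge {e : ℝ} (he : 0 < e) (he1 : e ≤ 1 / 2) : 2 ≤ Real.log (4 / e) := by
  have h1 : Real.log 8 ≤ Real.log (4 / e) := by
    apply Real.log_le_log (by norm_num)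
    rw [le_div_iff₀ he]
    linarith
  have h2 : Real.log 8 = 3 * Real.log 2 := by
    rw [show (8 : ℝ) = 2 ^ 3 by norm_num, Real.log_pow]
    norm_num
  have := Real.log_two_gt_d9
  linarith

theorem R1_gt {e δ : ℝ} (he : 0 < e) (he1 : e ≤ 1 / 2) (hδ0 : 0 ≤ δ) (hδ : δ ≤ e / 8) :
    Real.exp δ < (1 - 3 * e / 4) / (1 - e) := by
  have h1 : Real.exp δ ≤ 1 + δ + δ ^ 2 := by
    have h2 := Real.abs_exp_sub_one_sub_id_le (x := δ) (by
      rw [abs_of_nonneg hδ0]
      linarith)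
    have h3 := (abs_le.1 h2).2
    linarith
  have h2 : 1 + δ + δ ^ 2 ≤ 1 + e / 8 + e / 128 := by nlinarith
  have h3 : 1 + e / 4 ≤ (1 - 3 * e / 4) / (1 - e) := by
    rw [le_div_iff₀ (by linarith)]
    nlinarith
  linarith

theorem ptwise {t : ℂ} {β κ : ℝ} {N : ℕ} (hβ : 0 ≤ β) (hκ : 0 < κ) (hW : WP t β κ N) (S : Sg Y H)
    {e : ℝ} (he : 0 < e) (he1 : e ≤ 1 / 2) :
    Mn t H (1 - e) ≤ 2 * Real.pi * Real.exp (β * (lam ((1 - e) ^ 2) +
      2 * Real.log (Real.log (4 / e)) + Real.log (4 * (192 + 12 / κ + N))) + ‖t‖) := by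
  have hpi := Real.pi_pos
  obtain ⟨f, T⟩ := exists_TL S
  obtain ⟨l, hl⟩ : ∃ l, l = Real.log (4 / e) := ⟨_, rfl⟩
  have hl2 : 2 ≤ l := by rw [hl]; exact ell_ge he he1
  obtain ⟨A, hA⟩ : ∃ A, A = 192 + 12 / κ + (N : ℝ) := ⟨_, rfl⟩
  have hκ' : 0 < 12 / κ := by positivity
  have hN0 : (0 : ℝ) ≤ N := Nat.cast_nonneg N
  have hA1 : 192 ≤ A := by rw [hA]; linarith
  have hAN : (N : ℝ) ≤ A := by rw [hA]; linarith
  have hAκ : 12 / κ ≤ A := by rw [hA]; linarith
  have hA0 : 0 < A := by linarith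
  obtain ⟨n, hn⟩ : ∃ n : ℕ, n = ⌈A * l ^ 2 / e⌉₊ := ⟨_, rfl⟩
  have hn1 : A * l ^ 2 / e ≤ n := by rw [hn]; exact Nat.le_ceil _
  have hn2 : (n : ℝ) < A * l ^ 2 / e + 1 := by
    rw [hn]
    exact Nat.ceil_lt_add_one (by positivity)
  have hle1 : 1 ≤ l / e := by
    rw [le_div_iff₀ he]
    linarith
  have hnl : A * l * (l / e) ≤ n := by
    calc A * l * (l / e) = A * l ^ 2 / e := by ring
      _ ≤ n := hn1
  have hAl : A * l ≤ n := by
    refine le_trans ?_ hnl
    exact le_mul_of_one_le_right (by positivity) hle1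
  have hn0 : (0 : ℝ) < n := lt_of_lt_of_le (by positivity) hAl
  -- the parameter
  obtain ⟨φ, hφ⟩ := exists_phi S T (ρ := 1 - e) (r := 1 - e / 4) (by linarith) (by linarith)
    (by linarith) t
  refine hφ.trans ?_
  have hζ : ‖pt (1 - e / 4) φ‖ = 1 - e / 4 := norm_pt _ _ (by linarith)
  have K := blk S T he he1 (ρ := 1 - e) rfl hζ
  rw [← hl] at K
  obtain ⟨δ, hδ⟩ : ∃ δ, δ = 4 * l / n := ⟨_, rfl⟩
  have hδ0 : 0 ≤ δ := by rw [hδ]; positivity
  have hδe : δ ≤ e / 8 := by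
    rw [hδ, div_le_iff₀ hn0]
    have h1 : A * l ^ 2 ≤ n * e := by rwa [div_le_iff₀ he] at hn1
    nlinarith [mul_nonneg (by linarith : (0 : ℝ) ≤ A - 192) (sq_nonneg l)]
  have P : Par ((1 - 3 * e / 4) / (1 - e)) (2 * l) (12 * l / e) δ n := by
    refine ⟨?_, hδ0, by linarith, ?_, R1_gt he he1 hδ0 hδe, ?_⟩
    · have h1 : (2 : ℝ) ≤ n := by nlinarith
      exact_mod_cast h1
    · rw [hδ]
      apply le_of_eq
      field_simp
      norm_num
    · have h1 : 2 + 6 * (12 * l / e) = 2 + 72 * (l / e) := by ring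
      rw [h1]
      refine le_trans ?_ hnl
      nlinarith [mul_nonneg (by nlinarith : (0 : ℝ) ≤ A * l - 384) (by linarith : (0 : ℝ) ≤ l / e)]
  obtain ⟨Θ, F⟩ := exists_fix K P
  have hsig := sig K P F
  obtain ⟨U, hU⟩ : ∃ U : ℂ → ℂ, U = fun w => H (((1 - e : ℝ) : ℂ) * w) -
    kap f (pt (1 - e / 4) φ) (((1 - e : ℝ) : ℂ) * w) := ⟨_, rfl⟩
  rw [← hU] at K hsig ⊢
  have hbb := block_bound K P F t (γ := β) hβ (by
    intro ε hε
    have h4 : 3 * δ ≤ κ := by
      have h5 : 12 * l ≤ κ * n := by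
        have h6 : 12 / κ * l ≤ n := by
          refine le_trans ?_ hAl
          exact mul_le_mul_of_nonneg_right hAκ (by linarith)
        have h7 := mul_le_mul_of_nonneg_left h6 hκ.le
        calc 12 * l = κ * (12 / κ * l) := by field_simp
          _ ≤ _ := h7
      rw [hδ]
      have h6 : 3 * (4 * l / n) = 12 * l / n := by ring
      rw [h6, div_le_iff₀ hn0]
      exact h5
    have hNn : N ≤ n := by
      have h5 : (N : ℝ) ≤ n := by
        refine hAN.trans (le_trans ?_ hAl)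
        exact le_mul_of_one_le_right hA0.le (by linarith)
      exact_mod_cast h5
    have h1 := hW _ _ hsig (test_of K P F h4 hNn) ε hε
    have h2 : ∃ᶠ R in 𝓝[>] (1 : ℝ), Mn t (fun v => nu U Θ n v - Θ v) R⁻¹ ≤
        2 * Real.pi * Real.exp ((β + ε) * lam (R⁻¹ ^ 2)) := by
      refine (h1.and_eventually self_mem_nhdsWithin).mono ?_
      rintro R ⟨hR, hR1⟩
      have hR1' : 1 < R := hR1
      rw [eM_eq t hR1', ← lam_R hR1'] at hR
      have h3 : Mn t (hat (fun z => nu U Θ n z⁻¹ - Θ z⁻¹) 0) R⁻¹ =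
          Mn t (fun v => nu U Θ n v - Θ v) R⁻¹ := by
        unfold Mn
        congr 1
        ext θ
        have hne : pt R⁻¹ θ ≠ 0 := by
          rw [← norm_pos_iff, norm_pt _ _ (by positivity)]
          positivity
        rw [hat_ne _ _ hne, inv_inv]
      rw [h3, one_div, inv_mul_le_iff₀ (by positivity)] at hR
      exact hR
    exact tendsto_inv_one.frequently h2)
  refine hbb.trans ?_
  apply mul_le_mul_of_nonneg_left _ (by positivity)
  apply Real.exp_le_exp.2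
  apply add_le_add
  · apply mul_le_mul_of_nonneg_left _ hβ
    -- bound of `log n`
    have hn3 : (n : ℝ) ≤ 2 * (A * l ^ 2 / e) := by
      have : 1 ≤ A * l ^ 2 / e := by
        rw [le_div_iff₀ he]
        nlinarith
      linarith
    have h1 : Real.log n ≤ Real.log (2 * (A * l ^ 2 / e)) := Real.log_le_log hn0 hn3
    have h2 : Real.log (2 * (A * l ^ 2 / e)) = Real.log 2 + (Real.log A + 2 * Real.log l - Real.log e) := by
      rw [Real.log_mul (by norm_num) (by positivity), Real.log_div (by positivity) he.ne',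
        Real.log_mul hA0.ne' (by positivity), Real.log_pow]
      norm_num
    have h3 : Real.log (4 * A) = Real.log 2 + Real.log 2 + Real.log A := by
      rw [show (4 : ℝ) * A = 2 * 2 * A by ring, Real.log_mul (by norm_num) hA0.ne',
        Real.log_mul (by norm_num) (by norm_num)]
    have h4 : -Real.log e ≤ lam ((1 - e) ^ 2) + Real.log 2 := by
      have h5 : 1 - (1 - e) ^ 2 = e * (2 - e) := by ring
      rw [lam, h5, Real.log_mul he.ne' (by linarith)]
      have := Real.log_le_log (by linarith : 0 < 2 - e) (by linarith : 2 - e ≤ 2)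
      linarith
    rw [← hl, ← hA, h3]
    linarith
  · have h1 : (12 * l / e) * (3 * δ + 8 / n) ≤ 192 / A := by
      rw [hδ]
      have h2 : 3 * (4 * l / n) + 8 / n ≤ 16 * l / n := by
        rw [mul_div_assoc', ← add_div]
        apply div_le_div_of_nonneg_right _ hn0.le
        linarith
      have h3 : 16 * l / n ≤ 16 * l / (A * l ^ 2 / e) := by
        apply div_le_div_of_nonneg_left (by positivity) (by positivity) hn1
      calc _ ≤ (12 * l / e) * (16 * l / (A * l ^ 2 / e)) :=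
            mul_le_mul_of_nonneg_left (h2.trans h3) (by positivity)
        _ = 192 / A := by
            field_simp
            norm_num
    have h2 : 192 / A ≤ 1 := by
      rw [div_le_one hA0]
      exact hA1
    calc ‖t‖ * (12 * l / e * (3 * δ + 8 / n)) ≤ ‖t‖ * 1 :=
          mul_le_mul_of_nonneg_left (h1.trans h2) (norm_nonneg _)
      _ = ‖t‖ := mul_one _

theorem norm_circ {R : ℝ} (hR : 1 < R) (θ : ℝ) :
    ‖(R : ℂ) * Complex.exp ((θ : ℂ) * Complex.I)‖ = R := by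
  rw [norm_mul, Complex.norm_exp_ofReal_mul_I, Complex.norm_real,
    Real.norm_of_nonneg (by linarith), mul_one]

theorem circ_cont {h : ℂ → ℂ} (hh : ContinuousOn h {z : ℂ | 1 < ‖z‖}) {R : ℝ} (hR : 1 < R) :
    Continuous fun θ : ℝ => h ((R : ℂ) * Complex.exp ((θ : ℂ) * Complex.I)) := by
  apply hh.comp_continuous (by fun_prop)
  intro θ
  show 1 < ‖(R : ℂ) * Complex.exp ((θ : ℂ) * Complex.I)‖
  rw [norm_circ hR]
  exact hR

/-- comparison of means -/
theorem mean_mono {f g : ℝ → ℝ} (hf : Continuous f) (hg : Continuous g) (h : ∀ θ, f θ ≤ g θ) :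
    (1 / (2 * Real.pi)) * ∫ θ in (0:ℝ)..(2 * Real.pi), f θ ≤
      (1 / (2 * Real.pi)) * ∫ θ in (0:ℝ)..(2 * Real.pi), g θ := by
  have hpi := Real.pi_pos
  apply mul_le_mul_of_nonneg_left _ (by positivity)
  exact intervalIntegral.integral_mono_on (by positivity) (hf.intervalIntegrable _ _)
    (hg.intervalIntegrable _ _) (fun θ _ => h θ)

theorem mean_const (c : ℝ) : (1 / (2 * Real.pi)) * ∫ _θ in (0:ℝ)..(2 * Real.pi), c = c := by
  have hpi := Real.pi_pos
  rw [intervalIntegral.integral_const, sub_zero, smul_eq_mul]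
  field_simp

theorem exp_cont {h : ℂ → ℂ} (hh : ContinuousOn h {z : ℂ | 1 < ‖z‖}) {R : ℝ} (hR : 1 < R) (t : ℂ) :
    Continuous fun θ : ℝ => Real.exp ((starRingEnd ℂ) t *
      h ((R : ℂ) * Complex.exp ((θ : ℂ) * Complex.I))).re :=
  (continuous_re.comp (continuous_const.mul (circ_cont hh hR))).rexp

/-- moving along a ray -/
theorem eM_ray {ψ h : ℂ → ℂ} (S : IsSig ψ h) {R : ℝ} (hR : 1 < R) (t : ℂ) {s : ℝ} (hs : s ≤ 1) :
    eM t R h ≤ Real.exp ((1 - s) * (‖t‖ * Real.log (R ^ 2 / (R ^ 2 - 1)))) *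
      eM ((s : ℂ) * t) R h := by
  have hc := S.2.2.2.1.continuousOn
  have hpi := Real.pi_pos
  unfold eM
  rw [mul_left_comm]
  apply mul_le_mul_of_nonneg_left _ (by positivity)
  rw [← intervalIntegral.integral_const_mul]
  refine intervalIntegral.integral_mono_on (by positivity)
    ((exp_cont hc hR t).intervalIntegrable _ _)
    ((continuous_const.mul (exp_cont hc hR _)).intervalIntegrable _ _) (fun θ _ => ?_)
  show Real.exp ((starRingEnd ℂ) t * h ((R : ℂ) * Complex.exp ((θ : ℂ) * Complex.I))).re ≤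
    Real.exp ((1 - s) * (‖t‖ * Real.log (R ^ 2 / (R ^ 2 - 1)))) *
      Real.exp ((starRingEnd ℂ) ((s : ℂ) * t) *
        h ((R : ℂ) * Complex.exp ((θ : ℂ) * Complex.I))).re
  rw [← Real.exp_add]
  apply Real.exp_le_exp.2
  obtain ⟨w, hw⟩ : ∃ w, w = h ((R : ℂ) * Complex.exp ((θ : ℂ) * Complex.I)) := ⟨_, rfl⟩
  have hwL : ‖w‖ ≤ Real.log (R ^ 2 / (R ^ 2 - 1)) := by
    rw [hw]
    exact goluzin_ext S.sg hR (norm_circ hR θ)
  rw [← hw]
  have e1 : (starRingEnd ℂ) ((s : ℂ) * t) * w = (s : ℂ) * ((starRingEnd ℂ) t * w) := by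
    rw [map_mul, Complex.conj_ofReal, mul_assoc]
  rw [e1, Complex.re_ofReal_mul]
  have h3 := (le_abs_self _).trans (re_conj_le t w)
  have h4 : ((starRingEnd ℂ) t * w).re ≤ ‖t‖ * Real.log (R ^ 2 / (R ^ 2 - 1)) :=
    h3.trans (mul_le_mul_of_nonneg_left hwL (norm_nonneg t))
  have h5 := mul_le_mul_of_nonneg_left h4 (by linarith : 0 ≤ 1 - s)
  linarith

theorem eM_zero {ψ h : ℂ → ℂ} {R : ℝ} : eM 0 R h = 1 := by
  unfold eM
  simp only [map_zero, zero_mul, zero_re, Real.exp_zero]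
  exact mean_const 1

/-- the uniform bound for one exponent -/
theorem ext_bound {t : ℂ} {β κ : ℝ} {N : ℕ} (hβ : 0 ≤ β) (hκ : 0 < κ) (hW : WP t β κ N) {R : ℝ}
    (hR : 1 < R) {ψ h : ℂ → ℂ} (S : IsSig ψ h) :
    eM t R h ≤ Real.exp (β * (Real.log (R ^ 2 / (R ^ 2 - 1)) +
      2 * Real.log (Real.log (R ^ 2 / (R ^ 2 - 1)) + 3) +
      Real.log (4 * (192 + 12 / κ + N))) + ‖t‖) := by
  have hpi := Real.pi_pos
  have hL := L_pos hR
  obtain ⟨L, hLd⟩ : ∃ L, L = Real.log (R ^ 2 / (R ^ 2 - 1)) := ⟨_, rfl⟩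
  obtain ⟨e, he⟩ : ∃ e, e = 1 - R⁻¹ := ⟨_, rfl⟩
  have hRe : 1 - e = R⁻¹ := by rw [he]; ring
  have he0 : 0 < e := by
    rw [he]
    have := inv_lt_one_of_one_lt₀ hR
    linarith
  have hLe : L = lam ((1 - e) ^ 2) := by rw [hRe, lam_R hR, hLd]
  have he2 : e < 1 := by
    rw [he]
    have : 0 < R⁻¹ := by positivity
    linarith
  have hl3 : Real.log (4 / e) ≤ L + 3 := by
    have h5 : 1 - (1 - e) ^ 2 = e * (2 - e) := by ring
    rw [hLe, lam, h5, Real.log_mul he0.ne' (by linarith), Real.log_div (by norm_num) he0.ne']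
    have h6 := Real.log_le_log (by linarith : 0 < 2 - e) (by linarith : 2 - e ≤ 2)
    have h7 : Real.log 4 = 2 * Real.log 2 := by
      rw [show (4 : ℝ) = 2 ^ 2 by norm_num, Real.log_pow]
      norm_num
    have := Real.log_two_lt_d9
    linarith
  have hκ' : 0 < 12 / κ := by positivity
  have hN0 : (0 : ℝ) ≤ N := Nat.cast_nonneg N
  have hC0 : 0 ≤ Real.log (4 * (192 + 12 / κ + N)) := Real.log_nonneg (by linarith)
  have hlog3 : 0 ≤ Real.log (L + 3) := Real.log_nonneg (by rw [hLd]; linarith)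
  rw [← hLd] at hL ⊢
  rcases le_or_gt e (1 / 2) with he1 | he1
  · have hl0 : 0 < Real.log (4 / e) := by
      have := ell_ge he0 he1
      linarith
    have h3 := ptwise hβ hκ hW S.sg he0 he1
    rw [← hLe, hRe] at h3
    rw [eM_eq t hR]
    have h4 : Real.log (Real.log (4 / e)) ≤ Real.log (L + 3) := Real.log_le_log hl0 hl3
    calc 1 / (2 * Real.pi) * Mn t (hat h 0) R⁻¹
        ≤ 1 / (2 * Real.pi) * (2 * Real.pi * Real.exp (β * (L +
            2 * Real.log (Real.log (4 / e)) + Real.log (4 * (192 + 12 / κ + N))) + ‖t‖)) :=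
          mul_le_mul_of_nonneg_left h3 (by positivity)
      _ = Real.exp (β * (L + 2 * Real.log (Real.log (4 / e)) +
            Real.log (4 * (192 + 12 / κ + N))) + ‖t‖) := by field_simp
      _ ≤ _ := by
          apply Real.exp_le_exp.2
          have h5 := mul_le_mul_of_nonneg_left (by linarith : L + 2 * Real.log (Real.log (4 / e)) +
            Real.log (4 * (192 + 12 / κ + N)) ≤ L + 2 * Real.log (L + 3) +
            Real.log (4 * (192 + 12 / κ + N))) hβ
          linarith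
  · have hL1 : L ≤ 1 := by
      rw [hLe, lam]
      have h4 : 3 / 4 ≤ 1 - (1 - e) ^ 2 := by nlinarith
      have h5 := Real.log_le_log (by norm_num : (0 : ℝ) < 3 / 4) h4
      have h6 : -Real.log (3 / 4) < 1 := by
        rw [← Real.log_inv]
        have : Real.log ((3 / 4 : ℝ)⁻¹) ≤ (3 / 4 : ℝ)⁻¹ - 1 :=
          Real.log_le_sub_one_of_pos (by norm_num)
        norm_num at this ⊢
        linarith
      linarith
    have h1 := eM_ray S hR t (s := 0) zero_le_one
    have e0 : ((0 : ℝ) : ℂ) * t = 0 := by rw [Complex.ofReal_zero, zero_mul]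
    rw [e0, eM_zero (ψ := ψ), sub_zero, one_mul, mul_one, ← hLd] at h1
    refine h1.trans (Real.exp_le_exp.2 ?_)
    have h2 := mul_le_mul_of_nonneg_left hL1 (norm_nonneg t)
    have h3 : 0 ≤ β * (L + 2 * Real.log (L + 3) + Real.log (4 * (192 + 12 / κ + N))) := by positivity
    linarith

end Pool.Agent.W5h49.MB
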