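import Pool.Agent.W5h49.MB.A8

set_option autoImplicit false

/-! # The uniform square exponential bound -/

namespace Pool.Agent.W5h49.MB

open Complex Metric Set Filter Topology MeasureTheory
open Pool.Agent.W677.Mar Pool.Agent.R250.MC

/-- the integral of Q1 -/
noncomputable def sM (b R : ℝ) (h : ℂ → ℂ) : ℝ :=
  (1 / (2 * Real.pi)) * ∫ θ in (0:ℝ)..(2 * Real.pi),
    Real.exp (b * ‖h ((R : ℂ) * Complex.exp ((θ : ℂ) * Complex.I))‖ ^ 2 /
      Real.log (R ^ 2 / (R ^ 2 - 1)))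

/-- Gaussian averaging -/
theorem square_of_exp {g : ℝ → ℂ} (hg : Continuous g) {M : ℝ} (hM : ∀ θ, ‖g θ‖ ≤ M)
    {b m L K : ℝ} (hb : 0 < b) (hL : 0 < L) (hm : 4 * b * m < L)
    (hB : ∀ t : ℂ, ∫ θ in (0 : ℝ)..(2 * Real.pi), Real.exp ((starRingEnd ℂ) t * g θ).re ≤
      K * Real.exp (‖t‖ ^ 2 * m)) :
    ∫ θ in (0 : ℝ)..(2 * Real.pi), Real.exp (b * ‖g θ‖ ^ 2 / L) ≤ K * (L / (L - 4 * b * m)) := by
  have hpi := Real.pi_pos
  obtain ⟨β, hβ⟩ : ∃ β, β = L / (4 * b) := ⟨_, rfl⟩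
  have hβ0 : 0 < β := by rw [hβ]; positivity
  have hβm : 0 < β - m := by
    have : m < β := by
      rw [hβ, lt_div_iff₀ (by positivity)]
      linarith
    linarith
  obtain ⟨g1, g2⟩ := gauss0 hβm
  have e1 : (fun t : ℂ => Real.exp (-β * ‖t‖ ^ 2) * (K * Real.exp (‖t‖ ^ 2 * m))) =
      fun t : ℂ => K * Real.exp (-(β - m) * ‖t‖ ^ 2) := by
    funext t
    have : Real.exp (-(β - m) * ‖t‖ ^ 2) = Real.exp (-β * ‖t‖ ^ 2) * Real.exp (‖t‖ ^ 2 * m) := by
      rw [← Real.exp_add]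
      congr 1
      ring
    rw [this]
    ring
  have h1 := gauss_avg hg hM hβ0 hB (by rw [e1]; exact g1.const_mul _)
  rw [e1, integral_const_mul, g2] at h1
  have e2 : ∀ θ, Real.exp (b * ‖g θ‖ ^ 2 / L) = Real.exp (‖g θ‖ ^ 2 / (4 * β)) := by
    intro θ
    congr 1
    rw [hβ]
    field_simp
  simp only [e2]
  refine h1.trans (le_of_eq ?_)
  have h3 : β - m = (L - 4 * b * m) / (4 * b) := by
    rw [hβ]
    field_simp
  have h4 : L - 4 * b * m ≠ 0 := by
    have : 0 < L - 4 * b * m := by linarith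
    exact this.ne'
  rw [h3, hβ]
  field_simp

theorem log_bd {η y : ℝ} (hη : 0 < η) (hy : 0 < y) :
    Real.log y ≤ η / 4 * y + Real.log (4 / η) := by
  have h1 : Real.log (η / 4 * y) ≤ η / 4 * y - 1 := Real.log_le_sub_one_of_pos (by positivity)
  have h2 : Real.log (η / 4 * y) = -Real.log (4 / η) + Real.log y := by
    rw [Real.log_mul (by positivity) hy.ne', ← Real.log_inv, inv_div]
  linarith

/-- the error term -/
noncomputable def Er (L : ℝ) : ℝ := L + 2 * Real.log (L + 3) + 7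

theorem Er_le {L : ℝ} (hL : 0 < L) {η : ℝ} (hη : 0 < η) :
    Er L ≤ (1 + η / 2) * L + (3 * η / 2 + 2 * Real.log (4 / η) + 7) := by
  have h4 := log_bd hη (by linarith : 0 < L + 3)
  unfold Er
  linarith

theorem Er_ge {L : ℝ} (hL : 0 < L) : L ≤ Er L := by
  have : 0 ≤ Real.log (L + 3) := Real.log_nonneg (by linarith)
  unfold Er
  linarith

/-- from exponential means to the square exponential mean -/
theorem unif_aux {a b : ℝ} (hb : 0 < b) (hba : b < a) :
    ∃ C : ℝ, ∀ L : ℝ, 0 < L → ∀ g : ℝ → ℂ, Continuous g → (∀ θ, ‖g θ‖ ≤ L) →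
      (∀ t : ℂ, (1 / (2 * Real.pi)) * ∫ θ in (0 : ℝ)..(2 * Real.pi),
        Real.exp ((starRingEnd ℂ) t * g θ).re ≤ 2 * Real.exp (‖t‖ ^ 2 / (4 * a) * Er L + 2 * a)) →
      (1 / (2 * Real.pi)) * ∫ θ in (0 : ℝ)..(2 * Real.pi), Real.exp (b * ‖g θ‖ ^ 2 / L) ≤ C := by
  have hpi := Real.pi_pos
  have ha : 0 < a := hb.trans hba
  obtain ⟨a', ha'⟩ : ∃ a', a' = (a + b) / 2 := ⟨_, rfl⟩
  have h1 : b < a' := by rw [ha']; linarith
  have h2 : a' < a := by rw [ha']; linarith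
  have ha'0 : 0 < a' := hb.trans h1
  obtain ⟨η, hη⟩ : ∃ η, η = a / a' - 1 := ⟨_, rfl⟩
  have hη0 : 0 < η := by
    rw [hη]
    have : 1 < a / a' := by rwa [one_lt_div ha'0]
    linarith
  obtain ⟨L₀, hL₀⟩ : ∃ L₀, L₀ = 2 / η * (3 * η / 2 + 2 * Real.log (4 / η) + 7) := ⟨_, rfl⟩
  refine ⟨max (2 * Real.exp (2 * a) * (a' / (a' - b))) (Real.exp (b * L₀)), ?_⟩
  intro L hL g hg hgL hB
  rcases le_or_gt L₀ L with hc | hc
  · apply le_trans _ (le_max_left _ _)
    have hX : Er L ≤ a / a' * L := by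
      have h5 := Er_le hL hη0
      rw [hL₀] at hc
      have h6 : 3 * η / 2 + 2 * Real.log (4 / η) + 7 ≤ η / 2 * L := by
        have := mul_le_mul_of_nonneg_left hc (by positivity : 0 ≤ η / 2)
        calc _ = η / 2 * (2 / η * (3 * η / 2 + 2 * Real.log (4 / η) + 7)) := by field_simp
          _ ≤ _ := this
      have h7 : a / a' = 1 + η := by rw [hη]; ring
      rw [h7]
      linarith
    have hB' : ∀ t : ℂ, ∫ θ in (0 : ℝ)..(2 * Real.pi), Real.exp ((starRingEnd ℂ) t * g θ).re ≤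
        (2 * Real.pi * (2 * Real.exp (2 * a))) * Real.exp (‖t‖ ^ 2 * (L / (4 * a'))) := by
      intro t
      have h3 := hB t
      rw [one_div, inv_mul_le_iff₀ (by positivity)] at h3
      refine h3.trans ?_
      rw [mul_assoc (2 * Real.pi) (2 * Real.exp (2 * a)), mul_assoc 2 (Real.exp (2 * a)),
        ← Real.exp_add]
      apply mul_le_mul_of_nonneg_left _ (by positivity)
      apply mul_le_mul_of_nonneg_left _ (by positivity)
      apply Real.exp_le_exp.2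
      have h5 := mul_le_mul_of_nonneg_left hX (by positivity : 0 ≤ ‖t‖ ^ 2 / (4 * a))
      have h6 : ‖t‖ ^ 2 / (4 * a) * (a / a' * L) = ‖t‖ ^ 2 * (L / (4 * a')) := by
        field_simp
      rw [h6] at h5
      linarith
    have h4 : 4 * b * (L / (4 * a')) < L := by
      have : 4 * b * (L / (4 * a')) = b / a' * L := by field_simp
      rw [this]
      have : b / a' < 1 := by rwa [div_lt_one ha'0]
      nlinarith
    have h5 := square_of_exp hg hgL hb hL h4 hB'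
    calc _ ≤ (1 / (2 * Real.pi)) * ((2 * Real.pi * (2 * Real.exp (2 * a))) *
          (L / (L - 4 * b * (L / (4 * a'))))) := mul_le_mul_of_nonneg_left h5 (by positivity)
      _ = 2 * Real.exp (2 * a) * (a' / (a' - b)) := by
        have e1 : L - 4 * b * (L / (4 * a')) = L * (a' - b) / a' := by field_simp
        have e2 : a' - b ≠ 0 := by
          have : 0 < a' - b := by linarith
          exact this.ne'
        rw [e1]
        field_simp
  · apply le_trans _ (le_max_right _ _)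
    have h3 : (1 / (2 * Real.pi)) * ∫ θ in (0 : ℝ)..(2 * Real.pi), Real.exp (b * ‖g θ‖ ^ 2 / L) ≤
        (1 / (2 * Real.pi)) * ∫ _θ in (0 : ℝ)..(2 * Real.pi), Real.exp (b * L₀) := by
      apply mean_mono
      · exact ((continuous_const.mul (hg.norm.pow 2)).div_const _).rexp
      · exact continuous_const
      · intro θ
        apply Real.exp_le_exp.2
        rw [div_le_iff₀ hL]
        calc b * ‖g θ‖ ^ 2 ≤ b * L ^ 2 := by
              apply mul_le_mul_of_nonneg_left _ hb.le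
              exact pow_le_pow_left₀ (norm_nonneg _) (hgL θ) 2
          _ ≤ b * L₀ * L := by
              rw [sq, ← mul_assoc]
              apply mul_le_mul_of_nonneg_right _ hL.le
              exact mul_le_mul_of_nonneg_left hc.le hb.le
    rw [mean_const] at h3
    exact h3

theorem young1 (s x : ℝ) {L b : ℝ} (hL : 0 < L) (hb : 0 < b) :
    s * x ≤ s ^ 2 * L / (4 * b) + b * x ^ 2 / L := by
  have h2 : s ^ 2 * L / (4 * b) + b * x ^ 2 / L - s * x =
      (s * L - 2 * b * x) ^ 2 / (4 * b * L) := by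
    field_simp
    ring
  have h3 : 0 ≤ (s * L - 2 * b * x) ^ 2 / (4 * b * L) := by positivity
  linarith

/-- the directional square mean -/
noncomputable def rM (b R : ℝ) (u : ℂ) (h : ℂ → ℂ) : ℝ :=
  (1 / (2 * Real.pi)) * ∫ θ in (0:ℝ)..(2 * Real.pi),
    Real.exp (b * (max ((starRingEnd ℂ) u *
      h ((R : ℂ) * Complex.exp ((θ : ℂ) * Complex.I))).re 0) ^ 2 / Real.log (R ^ 2 / (R ^ 2 - 1)))

/-- Young's inequality for the means -/
theorem young_full {ψ h : ℂ → ℂ} (S : IsSig ψ h) {R : ℝ} (hR : 1 < R) {b : ℝ} (hb : 0 < b) (t : ℂ) :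
    eM t R h ≤ Real.exp (‖t‖ ^ 2 * Real.log (R ^ 2 / (R ^ 2 - 1)) / (4 * b)) * sM b R h := by
  have hpi := Real.pi_pos
  have hL := L_pos hR
  have hgc := circ_cont S.2.2.2.1.continuousOn hR
  unfold eM sM
  rw [mul_left_comm]
  apply mul_le_mul_of_nonneg_left _ (by positivity)
  rw [← intervalIntegral.integral_const_mul]
  refine intervalIntegral.integral_mono_on (by positivity)
    ((exp_cont S.2.2.2.1.continuousOn hR t).intervalIntegrable _ _)
    ((continuous_const.mul ((continuous_const.mul (hgc.norm.pow 2)).div_const _).rexp).intervalIntegrable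
      _ _) (fun θ _ => ?_)
  show Real.exp _ ≤ Real.exp _ * Real.exp _
  rw [← Real.exp_add]
  apply Real.exp_le_exp.2
  have h1 := (le_abs_self _).trans (re_conj_le t (h ((R : ℂ) * Complex.exp ((θ : ℂ) * Complex.I))))
  exact h1.trans (young1 _ _ hL hb)

theorem young_ray {ψ h : ℂ → ℂ} (S : IsSig ψ h) {R : ℝ} (hR : 1 < R) {b : ℝ} (hb : 0 < b) (u : ℂ)
    {s : ℝ} (hs : 0 ≤ s) :
    eM ((s : ℂ) * u) R h ≤ Real.exp (s ^ 2 * Real.log (R ^ 2 / (R ^ 2 - 1)) / (4 * b)) * rM b R u h := by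
  have hpi := Real.pi_pos
  have hL := L_pos hR
  have hgc := circ_cont S.2.2.2.1.continuousOn hR
  have hmc : Continuous fun θ : ℝ => max ((starRingEnd ℂ) u *
      h ((R : ℂ) * Complex.exp ((θ : ℂ) * Complex.I))).re 0 :=
    (continuous_re.comp (continuous_const.mul hgc)).max continuous_const
  unfold eM rM
  rw [mul_left_comm]
  apply mul_le_mul_of_nonneg_left _ (by positivity)
  rw [← intervalIntegral.integral_const_mul]
  refine intervalIntegral.integral_mono_on (by positivity)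
    ((exp_cont S.2.2.2.1.continuousOn hR _).intervalIntegrable _ _)
    ((continuous_const.mul ((continuous_const.mul (hmc.pow 2)).div_const _).rexp).intervalIntegrable
      _ _) (fun θ _ => ?_)
  show Real.exp _ ≤ Real.exp _ * Real.exp _
  rw [← Real.exp_add]
  apply Real.exp_le_exp.2
  obtain ⟨w, hw⟩ : ∃ w, w = h ((R : ℂ) * Complex.exp ((θ : ℂ) * Complex.I)) := ⟨_, rfl⟩
  rw [← hw]
  have e1 : (starRingEnd ℂ) ((s : ℂ) * u) * w = (s : ℂ) * ((starRingEnd ℂ) u * w) := by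
    rw [map_mul, Complex.conj_ofReal, mul_assoc]
  rw [e1, Complex.re_ofReal_mul]
  have h1 := mul_le_mul_of_nonneg_left (le_max_left ((starRingEnd ℂ) u * w).re 0) hs
  exact h1.trans (young1 _ _ hL hb)

theorem exists_b {a ε : ℝ} (ha : 0 < a) (hε : 0 < ε) (x : ℝ) :
    ∃ b, 0 < b ∧ b < a ∧ x ^ 2 / (4 * b) ≤ x ^ 2 / (4 * a) + ε / 2 := by
  have h1 : Tendsto (fun b : ℝ => x ^ 2 / (4 * b)) (𝓝[<] a) (𝓝 (x ^ 2 / (4 * a))) := by
    have h2 : ContinuousAt (fun b : ℝ => x ^ 2 / (4 * b)) a := by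
      apply ContinuousAt.div continuousAt_const (by fun_prop)
      positivity
    exact h2.tendsto.mono_left nhdsWithin_le_nhds
  have h2 : ∀ᶠ b in 𝓝[<] a, x ^ 2 / (4 * b) < x ^ 2 / (4 * a) + ε / 2 :=
    h1.eventually_lt_const (by linarith)
  have h3 : ∀ᶠ b in 𝓝[<] a, 0 < b := by
    have : Ioi (0 : ℝ) ∈ 𝓝 a := Ioi_mem_nhds ha
    exact mem_nhdsWithin_of_mem_nhds this
  have h4 : ∀ᶠ b in 𝓝[<] a, b < a := self_mem_nhdsWithin
  obtain ⟨b, h5, h6, h7⟩ := (h2.and (h3.and h4)).exists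
  exact ⟨b, h6, h7, h5.le⟩

theorem L_tendsto : Tendsto (fun R : ℝ => Real.log (R ^ 2 / (R ^ 2 - 1))) (𝓝[>] (1 : ℝ)) atTop := by
  have h1 := lam_tendsto.comp tendsto_inv_one
  refine h1.congr' ?_
  filter_upwards [self_mem_nhdsWithin] with R hR
  exact lam_R hR

/-- from a bound of the squares to a bound of the means -/
theorem comb {m q x a b ε C L : ℝ} (hL : 0 < L) (hbt : x ^ 2 / (4 * b) ≤ x ^ 2 / (4 * a) + ε / 2)
    (h1 : m ≤ Real.exp (x ^ 2 * L / (4 * b)) * q) (hC : q ≤ C) (hRL : C ≤ Real.exp (ε / 2 * L)) :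
    m ≤ Real.exp ((x ^ 2 / (4 * a) + ε) * L) := by
  have h2 := mul_le_mul_of_nonneg_left (hC.trans hRL) (Real.exp_pos (x ^ 2 * L / (4 * b))).le
  refine (h1.trans h2).trans ?_
  rw [← Real.exp_add]
  apply Real.exp_le_exp.2
  have h3 := mul_le_mul_of_nonneg_right hbt hL.le
  have h4 : x ^ 2 * L / (4 * b) = x ^ 2 / (4 * b) * L := by ring
  rw [h4]
  linarith

theorem ev_C {ε : ℝ} (hε : 0 < ε) (C : ℝ) :
    ∀ᶠ R in 𝓝[>] (1 : ℝ), C ≤ Real.exp (ε / 2 * Real.log (R ^ 2 / (R ^ 2 - 1))) := by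
  have h1 : Tendsto (fun R : ℝ => Real.exp (ε / 2 * Real.log (R ^ 2 / (R ^ 2 - 1))))
      (𝓝[>] (1 : ℝ)) atTop :=
    Real.tendsto_exp_atTop.comp (L_tendsto.const_mul_atTop (by positivity))
  exact h1.eventually_ge_atTop C

theorem ev_one : ∀ᶠ R in 𝓝[>] (1 : ℝ), 1 < R := self_mem_nhdsWithin

/-- the error term is absorbed -/
theorem absorb {β ε : ℝ} (hβ : 0 ≤ β) (hε : 0 < ε) (C D : ℝ) :
    ∀ᶠ R in 𝓝[>] (1 : ℝ), β * (Real.log (R ^ 2 / (R ^ 2 - 1)) +
      2 * Real.log (Real.log (R ^ 2 / (R ^ 2 - 1)) + 3) + C) + D ≤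
      (β + ε) * Real.log (R ^ 2 / (R ^ 2 - 1)) := by
  obtain ⟨η, hη⟩ : ∃ η, η = ε / (β + 1) := ⟨_, rfl⟩
  have hη0 : 0 < η := by rw [hη]; positivity
  have hβη : β * η ≤ ε := by
    rw [hη, mul_div_assoc', div_le_iff₀ (by positivity)]
    nlinarith
  have h1 : ∀ᶠ R in 𝓝[>] (1 : ℝ), 2 / ε * (β * (3 * η / 2 + 2 * Real.log (4 / η) + C) + D) ≤
      Real.log (R ^ 2 / (R ^ 2 - 1)) := L_tendsto.eventually_ge_atTop _
  filter_upwards [h1, ev_one] with R h2 hR
  have hL := L_pos hR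
  obtain ⟨L, hLd⟩ : ∃ L, L = Real.log (R ^ 2 / (R ^ 2 - 1)) := ⟨_, rfl⟩
  rw [← hLd] at h2 hL ⊢
  have h4 := log_bd hη0 (by linarith : 0 < L + 3)
  have h5 := mul_le_mul_of_nonneg_left h4 (by linarith : 0 ≤ 2 * β)
  have h6 := mul_le_mul_of_nonneg_left h2 (by positivity : 0 ≤ ε / 2)
  have h7 : ε / 2 * (2 / ε * (β * (3 * η / 2 + 2 * Real.log (4 / η) + C) + D)) =
      β * (3 * η / 2 + 2 * Real.log (4 / η) + C) + D := by field_simp
  rw [h7] at h6
  have h8 := mul_le_mul_of_nonneg_right hβη hL.le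
  linarith

end Pool.Agent.W5h49.MB
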